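import Pool.Agent.Work.MP_2beaeb_nt.Defs

/-! # the ratio of the abundancies -/

namespace Pool.Agent.Work.MP_2beaeb_nt

open Finset
open scoped ArithmeticFunction.sigma

theorem Abundancy_local {p : ℕ} (hp : p.Prime) (v : ℕ) :
    ((σ 1 (p ^ v) : ℕ) : ℝ) / ((p ^ v : ℕ) : ℝ) =
      (p : ℝ) / (p - 1) * (1 - 1 / (p : ℝ) ^ (v + 1)) := by
  rw [ArithmeticFunction.sigma_one_apply_prime_pow hp]
  have h2 : (2 : ℝ) ≤ p := by exact_mod_cast hp.two_le
  have h1 : (p : ℝ) - 1 ≠ 0 := by linarith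
  have h0 : (p : ℝ) ≠ 0 := by linarith
  push_cast
  have h3 := geom_sum_eq (x := (p : ℝ)) (by linarith) (v + 1)
  rw [h3]
  field_simp
  ring

theorem Abundancy_hab {m : ℕ} (hm : m ≠ 0) : hab m =
    ∏ p ∈ m.primeFactors, ((p : ℝ) / (p - 1) * (1 - 1 / (p : ℝ) ^ (m.factorization p + 1))) := by
  unfold hab
  have h1 : ((σ 1 m : ℕ) : ℝ) = ∏ p ∈ m.primeFactors, ((σ 1 (p ^ m.factorization p) : ℕ) : ℝ) := by
    rw [ArithmeticFunction.isMultiplicative_sigma.multiplicative_factorization _ hm]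
    rw [Finsupp.prod, Nat.support_factorization]
    push_cast
    rfl
  have h2 : (m : ℝ) = ∏ p ∈ m.primeFactors, ((p ^ m.factorization p : ℕ) : ℝ) := by
    conv_lhs => rw [← Nat.prod_factorization_pow_eq_self hm]
    rw [Finsupp.prod, Nat.support_factorization]
    push_cast
    rfl
  rw [h1]
  conv_lhs => rw [h2]
  rw [← Finset.prod_div_distrib]
  apply Finset.prod_congr rfl
  intro p hp
  exact Abundancy_local (Nat.prime_of_mem_primeFactors hp) _

theorem Abundancy_pow_le {p : ℕ} (hp : p.Prime) {E v : ℕ} (hv : E ≤ v) :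
    1 / (p : ℝ) ^ (v + 1) ≤ 1 / 2 ^ (E + 1) := by
  have h2 : (2 : ℝ) ≤ p := by exact_mod_cast hp.two_le
  apply one_div_le_one_div_of_le (by positivity)
  calc (2 : ℝ) ^ (E + 1) ≤ (p : ℝ) ^ (E + 1) := pow_le_pow_left₀ (by norm_num) h2 _
    _ ≤ (p : ℝ) ^ (v + 1) := pow_le_pow_right₀ (by linarith) (by omega)

theorem Abundancy_pos {p : ℕ} (hp : p.Prime) (v : ℕ) : 0 < 1 - 1 / (p : ℝ) ^ (v + 1) := by
  have h := Abundancy_pow_le hp (Nat.zero_le v)
  have : (1 : ℝ) / 2 ^ (0 + 1) = 1 / 2 := by norm_num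
  linarith

theorem Abundancy_pos' {p : ℕ} (hp : p.Prime) : (0 : ℝ) < (p : ℝ) / (p - 1) := by
  have h2 : (2 : ℝ) ≤ p := by exact_mod_cast hp.two_le
  exact div_pos (by linarith) (by linarith)

theorem Abundancy_log {m : ℕ} (hm : m ≠ 0) : Real.log (hab m) =
    ∑ p ∈ m.primeFactors,
      (Real.log ((p : ℝ) / (p - 1)) + Real.log (1 - 1 / (p : ℝ) ^ (m.factorization p + 1))) := by
  rw [Abundancy_hab hm, Real.log_prod]
  · apply Finset.sum_congr rfl
    intro p hp
    have hp' := Nat.prime_of_mem_primeFactors hp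
    exact Real.log_mul (Abundancy_pos' hp').ne' (Abundancy_pos hp' _).ne'
  · intro p hp
    have hp' := Nat.prime_of_mem_primeFactors hp
    exact (mul_pos (Abundancy_pos' hp') (Abundancy_pos hp' _)).ne'

/-- the factor at a prime with a high power -/
theorem Abundancy_big {p : ℕ} (hp : p.Prime) {E v : ℕ} (hv : E ≤ v) :
    |(Real.log ((p : ℝ) / (p - 1)) + Real.log (1 - 1 / (p : ℝ) ^ (v + 1))) -
      Real.log ((p : ℝ) / (p - 1))| ≤ 2 / 2 ^ E := by
  have h1 := Abundancy_pow_le hp hv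
  have h0 : 0 < 1 / (p : ℝ) ^ (v + 1) := by
    have := hp.pos
    positivity
  have hpos := Abundancy_pos hp v
  have h3 := Real.one_sub_inv_le_log_of_pos hpos
  have h4 := Real.log_le_sub_one_of_pos hpos
  have h5 : (1 : ℝ) / 2 ^ (E + 1) ≤ 1 / 2 := by
    apply one_div_le_one_div_of_le (by norm_num)
    calc (2 : ℝ) = 2 ^ 1 := by norm_num
      _ ≤ 2 ^ (E + 1) := pow_le_pow_right₀ (by norm_num) (by omega)
  set x : ℝ := 1 / (p : ℝ) ^ (v + 1) with hx
  have h6 : 1 - (1 - x)⁻¹ ≥ -(2 * x) := by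
    have h7 : (1 - x)⁻¹ = 1 + x / (1 - x) := by
      have : 1 - x ≠ 0 := by linarith
      field_simp
      ring
    rw [h7]
    have h8 : x / (1 - x) ≤ 2 * x := by
      rw [div_le_iff₀ hpos]
      nlinarith
    linarith
  have h9 : 2 * x ≤ 2 / 2 ^ E := by
    have : (1 : ℝ) / 2 ^ (E + 1) ≤ 1 / 2 ^ E := by
      apply one_div_le_one_div_of_le (by positivity)
      exact pow_le_pow_right₀ (by norm_num) (by omega)
    calc 2 * x ≤ 2 * (1 / 2 ^ (E + 1)) := by linarith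
      _ ≤ 2 * (1 / 2 ^ E) := by linarith
      _ = 2 / 2 ^ E := by ring
  rw [add_sub_cancel_left, abs_le]
  constructor
  · linarith
  · linarith

/-- the factor at any prime -/
theorem Abundancy_any {p : ℕ} (hp : p.Prime) {v : ℕ} (hv : 1 ≤ v) :
    |Real.log ((p : ℝ) / (p - 1)) + Real.log (1 - 1 / (p : ℝ) ^ (v + 1))| ≤ 2 / p := by
  have h2 : (2 : ℝ) ≤ p := by exact_mod_cast hp.two_le
  have hpos := Abundancy_pos hp v
  have h4 := Real.log_le_sub_one_of_pos hpos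
  have hpos' := Abundancy_pos' hp
  have h5 := Real.log_le_sub_one_of_pos hpos'
  have h6 : (p : ℝ) / (p - 1) - 1 = 1 / (p - 1) := by
    have : (p : ℝ) - 1 ≠ 0 := by linarith
    field_simp
    ring
  have h7 : 1 / ((p : ℝ) - 1) ≤ 2 / p := by
    rw [div_le_div_iff₀ (by linarith) (by linarith)]
    linarith
  have h8 : 0 < 1 / (p : ℝ) ^ (v + 1) := by positivity
  rw [← Real.log_mul hpos'.ne' hpos.ne']
  have h9 : 1 ≤ (p : ℝ) / (p - 1) * (1 - 1 / (p : ℝ) ^ (v + 1)) := by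
    have h10 : 1 / (p : ℝ) ^ (v + 1) ≤ 1 / p := by
      apply one_div_le_one_div_of_le (by linarith)
      calc (p : ℝ) = (p : ℝ) ^ 1 := (pow_one _).symm
        _ ≤ (p : ℝ) ^ (v + 1) := pow_le_pow_right₀ (by linarith) (by omega)
    have h11 : (p : ℝ) / (p - 1) * (1 - 1 / p) = 1 := by
      have : (p : ℝ) - 1 ≠ 0 := by linarith
      have : (p : ℝ) ≠ 0 := by linarith
      field_simp
    calc (1 : ℝ) = (p : ℝ) / (p - 1) * (1 - 1 / p) := h11.symm
      _ ≤ _ := by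
        apply mul_le_mul_of_nonneg_left _ hpos'.le
        linarith
  rw [abs_of_nonneg (Real.log_nonneg h9), Real.log_mul hpos'.ne' hpos.ne']
  linarith

theorem Abundancy_half {A : Finset ℕ} (hA : ∀ p ∈ A, p.Prime) {E m : ℕ} (hm : m ≠ 0)
    (hAm : ∀ p ∈ A, p ^ E ∣ m) (hE : 1 ≤ E) :
    |Real.log (hab m) - ∑ p ∈ A, Real.log ((p : ℝ) / (p - 1))| ≤
      A.card * (2 / 2 ^ E) + 2 * ∑ q ∈ m.primeFactors \ A, 1 / (q : ℝ) := by
  have hsub : A ⊆ m.primeFactors := by
    intro p hp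
    rw [Nat.mem_primeFactors]
    exact ⟨hA p hp, (dvd_pow_self p (by omega)).trans (hAm p hp), hm⟩
  rw [Abundancy_log hm, ← Finset.sum_sdiff hsub, add_sub_assoc, ← Finset.sum_sub_distrib]
  have h1 : |∑ q ∈ m.primeFactors \ A, (Real.log ((q : ℝ) / (q - 1)) +
      Real.log (1 - 1 / (q : ℝ) ^ (m.factorization q + 1)))| ≤
      2 * ∑ q ∈ m.primeFactors \ A, 1 / (q : ℝ) := by
    rw [Finset.mul_sum]
    refine le_trans (Finset.abs_sum_le_sum_abs _ _) (Finset.sum_le_sum ?_)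
    intro q hq
    have hq' := (mem_sdiff.1 hq).1
    have hqp := Nat.prime_of_mem_primeFactors hq'
    have h2 := Abundancy_any hqp (v := m.factorization q)
      (hqp.factorization_pos_of_dvd hm (Nat.dvd_of_mem_primeFactors hq'))
    calc _ ≤ 2 / (q : ℝ) := h2
      _ = 2 * (1 / (q : ℝ)) := by ring
  have h3 : |∑ p ∈ A, (Real.log ((p : ℝ) / (p - 1)) +
      Real.log (1 - 1 / (p : ℝ) ^ (m.factorization p + 1)) - Real.log ((p : ℝ) / (p - 1)))| ≤
      A.card * (2 / 2 ^ E) := by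
    refine le_trans (Finset.abs_sum_le_sum_abs _ _) ?_
    rw [← nsmul_eq_mul]
    apply Finset.sum_le_card_nsmul
    intro p hp
    apply Abundancy_big (hA p hp)
    exact ((hA p hp).pow_dvd_iff_le_factorization hm).1 (hAm p hp)
  refine le_trans (abs_add_le _ _) ?_
  linarith

theorem hab_estimate {A B : Finset ℕ} (hA : ∀ p ∈ A, p.Prime) (hB : ∀ p ∈ B, p.Prime)
    (hAB : Disjoint A B) (E u : ℕ) (hu : 0 < u) (hAu : ∀ p ∈ A, p ^ E ∣ u)
    (hE : 1 ≤ E) (hBu : ∀ p ∈ B, p ^ E ∣ u + 1) (δ : ℝ)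
    (hδ : ∑ q ∈ (u * (u + 1)).primeFactors \ (A ∪ B), 1 / (q : ℝ) ≤ δ) :
    |Real.log (hab u / hab (u + 1)) - target A B| ≤ 2 * δ + (A.card + B.card : ℕ) * (2 / 2 ^ E) := by
  have hu0 : u ≠ 0 := hu.ne'
  have hu1 : u + 1 ≠ 0 := Nat.succ_ne_zero u
  have hpos : ∀ m : ℕ, m ≠ 0 → hab m ≠ 0 := by
    intro m hm
    rw [Abundancy_hab hm]
    apply Finset.prod_ne_zero_iff.2
    intro p hp
    have hp' := Nat.prime_of_mem_primeFactors hp
    exact (mul_pos (Abundancy_pos' hp') (Abundancy_pos hp' _)).ne'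
  have h1 := Abundancy_half hA hu0 hAu hE
  have h2 := Abundancy_half hB hu1 hBu hE
  have hcop : Nat.Coprime u (u + 1) := by simp
  have hdis : Disjoint u.primeFactors (u + 1).primeFactors := hcop.disjoint_primeFactors
  have hAsub : A ⊆ u.primeFactors := by
    intro p hp
    rw [Nat.mem_primeFactors]
    exact ⟨hA p hp, (dvd_pow_self p (by omega)).trans (hAu p hp), hu0⟩
  have hBsub : B ⊆ (u + 1).primeFactors := by
    intro p hp
    rw [Nat.mem_primeFactors]
    exact ⟨hB p hp, (dvd_pow_self p (by omega)).trans (hBu p hp), hu1⟩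
  have hset : (u * (u + 1)).primeFactors \ (A ∪ B) =
      (u.primeFactors \ A) ∪ ((u + 1).primeFactors \ B) := by
    rw [Nat.primeFactors_mul hu0 hu1]
    ext q
    simp only [mem_sdiff, mem_union]
    constructor
    · rintro ⟨h3 | h3, h4⟩
      · exact Or.inl ⟨h3, fun h => h4 (Or.inl h)⟩
      · exact Or.inr ⟨h3, fun h => h4 (Or.inr h)⟩
    · rintro (⟨h3, h4⟩ | ⟨h3, h4⟩)
      · refine ⟨Or.inl h3, ?_⟩
        rintro (h | h)
        · exact h4 h
        · exact (Finset.disjoint_left.1 hdis h3) (hBsub h)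
      · refine ⟨Or.inr h3, ?_⟩
        rintro (h | h)
        · exact (Finset.disjoint_left.1 hdis (hAsub h)) h3
        · exact h4 h
  have hdis2 : Disjoint (u.primeFactors \ A) ((u + 1).primeFactors \ B) :=
    Finset.disjoint_of_subset_left Finset.sdiff_subset
      (Finset.disjoint_of_subset_right Finset.sdiff_subset hdis)
  rw [hset, Finset.sum_union hdis2] at hδ
  rw [Real.log_div (hpos u hu0) (hpos (u + 1) hu1)]
  unfold target
  push_cast
  rw [abs_le] at h1 h2 ⊢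
  constructor <;> linarith [h1.1, h1.2, h2.1, h2.2]

end Pool.Agent.Work.MP_2beaeb_nt
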