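import Pool.Agent.Work.MP_2beaeb_nt.Defs

/-! # linear forms with few large prime factors -/

namespace Pool.Agent.Work.MP_2beaeb_nt

open Finset
open scoped ArithmeticFunction.sigma

/-- the number of `s` in an interval with `q ∣ a s + b` -/
theorem Averaging_count (a b q s₀ S : ℕ) (hq : q.Prime) (hqa : ¬ q ∣ a) :
    (((Ico s₀ (s₀ + S)).filter (fun s => q ∣ a * s + b)).card : ℝ) ≤ (S : ℝ) / q + 1 := by
  have hqpos : (0 : ℝ) < q := by exact_mod_cast hq.pos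
  rcases ((Ico s₀ (s₀ + S)).filter (fun s => q ∣ a * s + b)).eq_empty_or_nonempty with h | ⟨v, hv⟩
  · rw [h]
    simp only [card_empty, Nat.cast_zero]
    positivity
  · rw [mem_filter] at hv
    have hsub : (Ico s₀ (s₀ + S)).filter (fun s => q ∣ a * s + b) ⊆
        (Ico s₀ (s₀ + S)).filter (fun s => s ≡ v [MOD q]) := by
      intro s hs
      rw [mem_filter] at hs ⊢
      refine ⟨hs.1, ?_⟩
      have h1 : a * s + b ≡ a * v + b [MOD q] :=
        ((Nat.modEq_zero_iff_dvd).2 hs.2).trans ((Nat.modEq_zero_iff_dvd).2 hv.2).symm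
      have h2 : a * s ≡ a * v [MOD q] := Nat.ModEq.add_right_cancel' b h1
      exact Nat.ModEq.cancel_left_of_coprime ((Nat.Prime.coprime_iff_not_dvd hq).2 hqa) h2
    have h1 := card_le_card hsub
    have h2 := Nat.Ico_filter_modEq_card s₀ (s₀ + S) hq.pos v
    have h3 : (((Ico s₀ (s₀ + S)).filter (fun s => s ≡ v [MOD q])).card : ℚ) ≤ (S : ℚ) / q + 1 := by
      have h4 : ((((Ico s₀ (s₀ + S)).filter (fun s => s ≡ v [MOD q])).card : ℤ) : ℚ) ≤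
          (S : ℚ) / q + 1 := by
        rw [h2]
        have h5 : (⌈(((s₀ + S : ℕ) : ℚ) - v) / (q : ℚ)⌉ : ℚ) < (((s₀ + S : ℕ) : ℚ) - v) / (q : ℚ) + 1 :=
          Int.ceil_lt_add_one _
        have h6 : ((s₀ : ℚ) - v) / (q : ℚ) ≤ (⌈((s₀ : ℚ) - v) / (q : ℚ)⌉ : ℚ) := Int.le_ceil _
        have h7 : (((s₀ + S : ℕ) : ℚ) - v) / (q : ℚ) = ((s₀ : ℚ) - v) / (q : ℚ) + (S : ℚ) / q := by
          push_cast
          ring
        have h8 : (0 : ℚ) ≤ (S : ℚ) / q + 1 := by positivity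
        rw [Int.cast_max]
        push_cast at *
        refine max_le ?_ h8
        linarith
      exact_mod_cast h4
    have h9 : (((Ico s₀ (s₀ + S)).filter (fun s => s ≡ v [MOD q])).card : ℝ) ≤ (S : ℝ) / q + 1 := by
      have := (Rat.cast_le (K := ℝ)).2 h3
      push_cast at this
      exact this
    exact le_trans (by exact_mod_cast h1) h9

/-- one linear form, summed over an interval -/
theorem Averaging_one (a b Q s₀ S X : ℕ) (_ha : 0 < a) (hQ : 0 < Q) (hX : a * (s₀ + S) + b ≤ X) :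
    ∑ s ∈ Ico s₀ (s₀ + S),
      ∑ q ∈ (a * s + b).primeFactors.filter (fun q => Q < q ∧ ¬ q ∣ a), 1 / (q : ℝ)
      ≤ (S : ℝ) / Q + (1 + Real.log X) := by
  have h1 : ∀ s ∈ Ico s₀ (s₀ + S),
      ∑ q ∈ (a * s + b).primeFactors.filter (fun q => Q < q ∧ ¬ q ∣ a), 1 / (q : ℝ) ≤
      ∑ q ∈ (Ioc Q X).filter (fun q => q.Prime ∧ ¬ q ∣ a),
        if q ∣ a * s + b then 1 / (q : ℝ) else 0 := by
    intro s hs
    rw [mem_Ico] at hs
    rw [← sum_filter]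
    refine sum_le_sum_of_subset_of_nonneg ?_ (fun q _ _ => by positivity)
    intro q hq
    simp only [mem_filter, Nat.mem_primeFactors, mem_Ioc] at hq ⊢
    obtain ⟨⟨hqp, hqd, hne⟩, hQq, hqa⟩ := hq
    refine ⟨⟨⟨hQq, ?_⟩, hqp, hqa⟩, hqd⟩
    have h2 : q ≤ a * s + b := Nat.le_of_dvd (Nat.pos_of_ne_zero hne) hqd
    have h3 : a * s ≤ a * (s₀ + S) := Nat.mul_le_mul_left a hs.2.le
    omega
  refine (sum_le_sum h1).trans ?_
  rw [sum_comm]
  have h2 : ∀ q ∈ (Ioc Q X).filter (fun q => q.Prime ∧ ¬ q ∣ a),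
      (∑ s ∈ Ico s₀ (s₀ + S), if q ∣ a * s + b then 1 / (q : ℝ) else 0) ≤
      (S : ℝ) * ((q : ℝ) ^ 2)⁻¹ + (q : ℝ)⁻¹ := by
    intro q hq
    rw [mem_filter] at hq
    have hqpos : (0 : ℝ) < q := by exact_mod_cast hq.2.1.pos
    rw [← sum_filter, sum_const, nsmul_eq_mul]
    have h3 := Averaging_count a b q s₀ S hq.2.1 hq.2.2
    have h4 : (((Ico s₀ (s₀ + S)).filter (fun s => q ∣ a * s + b)).card : ℝ) * (1 / (q : ℝ)) ≤
        ((S : ℝ) / q + 1) * (1 / (q : ℝ)) := by gcongr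
    refine h4.trans (le_of_eq ?_)
    field_simp
  refine (sum_le_sum h2).trans ?_
  have h3 : ∑ q ∈ (Ioc Q X).filter (fun q => q.Prime ∧ ¬ q ∣ a),
      ((S : ℝ) * ((q : ℝ) ^ 2)⁻¹ + (q : ℝ)⁻¹) ≤
      ∑ q ∈ Ioc Q X, ((S : ℝ) * ((q : ℝ) ^ 2)⁻¹ + (q : ℝ)⁻¹) :=
    sum_le_sum_of_subset_of_nonneg (filter_subset _ _) (fun q _ _ => by positivity)
  refine h3.trans ?_
  rw [sum_add_distrib, ← mul_sum]
  have h4 : ∑ q ∈ Ioc Q X, ((q : ℝ) ^ 2)⁻¹ ≤ (Q : ℝ)⁻¹ := by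
    rcases le_or_gt Q X with h | h
    · have h5 := sum_Ioc_inv_sq_le_sub (α := ℝ) hQ.ne' h
      have h6 : (0 : ℝ) ≤ (X : ℝ)⁻¹ := by positivity
      linarith
    · rw [Ioc_eq_empty (by omega)]
      simp
  have h5 : ∑ q ∈ Ioc Q X, (q : ℝ)⁻¹ ≤ 1 + Real.log X := by
    have h6 := harmonic_le_one_add_log X
    have h7 : ∑ q ∈ Ioc Q X, (q : ℝ)⁻¹ ≤ ∑ q ∈ Icc 1 X, (q : ℝ)⁻¹ := by
      refine sum_le_sum_of_subset_of_nonneg ?_ (fun q _ _ => by positivity)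
      intro q hq
      rw [mem_Ioc] at hq
      rw [mem_Icc]
      omega
    rw [harmonic_eq_sum_Icc] at h6
    push_cast at h6
    linarith
  have h6 : (S : ℝ) * ∑ q ∈ Ioc Q X, ((q : ℝ) ^ 2)⁻¹ ≤ (S : ℝ) / Q := by
    rw [div_eq_mul_inv]
    gcongr
  linarith

theorem averaging (K : ℕ) (δ : ℝ) (hδ : 0 < δ) : ∃ Q₀ : ℕ, ∀ (n : ℕ), n ≤ K →
    ∀ (a b : Fin n → ℕ), (∀ l, 0 < a l) → ∀ Q : ℕ, Q₀ ≤ Q → ∀ s₀ : ℕ, ∃ s : ℕ, s₀ ≤ s ∧
      ∑ l, ∑ q ∈ (a l * s + b l).primeFactors.filter (fun q => Q < q ∧ ¬ q ∣ a l), 1 / (q : ℝ) ≤ δ := by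
  obtain ⟨Q₁, hQ₁⟩ := exists_nat_gt (2 * (K : ℝ) / δ)
  refine ⟨Q₁ + 1, ?_⟩
  intro n hn a b ha Q hQ s₀
  -- bounds
  set A : ℕ := ∑ l, a l with hA
  set B : ℕ := ∑ l, b l with hB
  have haA : ∀ l, a l ≤ A := fun l => single_le_sum (f := a) (fun _ _ => Nat.zero_le _) (mem_univ l)
  have hbB : ∀ l, b l ≤ B := fun l => single_le_sum (f := b) (fun _ _ => Nat.zero_le _) (mem_univ l)
  set C : ℕ := A * (s₀ + 1) + B + 1 with hC
  -- S large
  have hlim : ∃ S : ℕ, 0 < S ∧ (K : ℝ) * (1 + Real.log ((C * S : ℕ) : ℝ)) ≤ δ / 2 * S := by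
    have h1 : (fun x : ℝ => (K : ℝ) * (1 + Real.log C + Real.log x)) =o[Filter.atTop] (id : ℝ → ℝ) := by
      refine Asymptotics.IsLittleO.const_mul_left ?_ _
      refine Asymptotics.IsLittleO.add ?_ Real.isLittleO_log_id_atTop
      exact Asymptotics.isLittleO_const_id_atTop _
    have h2 := (h1.bound (half_pos hδ))
    have h3 := (tendsto_natCast_atTop_atTop (R := ℝ)).eventually h2
    obtain ⟨S, hS, hS1⟩ := (h3.and (Filter.eventually_gt_atTop 0)).exists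
    refine ⟨S, hS1, ?_⟩
    have hSpos : (0 : ℝ) < S := by exact_mod_cast hS1
    have hCpos : (0 : ℝ) < C := by
      have : 0 < C := by omega
      exact_mod_cast this
    have h4 : ‖(K : ℝ) * (1 + Real.log C + Real.log (S : ℝ))‖ ≤ δ / 2 * ‖(id (S : ℝ) : ℝ)‖ := hS
    rw [id, Real.norm_of_nonneg hSpos.le] at h4
    have h5 := (le_abs_self _).trans h4
    rw [Nat.cast_mul, Real.log_mul hCpos.ne' hSpos.ne']
    linarith
  obtain ⟨S, hSpos, hS⟩ := hlim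
  have hSR : (0 : ℝ) < S := by exact_mod_cast hSpos
  by_contra hcon
  push Not at hcon
  have hsum : ∑ s ∈ Ico s₀ (s₀ + S), ∑ l,
      ∑ q ∈ (a l * s + b l).primeFactors.filter (fun q => Q < q ∧ ¬ q ∣ a l), 1 / (q : ℝ) ≤
      (K : ℝ) * ((S : ℝ) / Q + (1 + Real.log ((C * S : ℕ) : ℝ))) := by
    rw [sum_comm]
    have h1 : ∀ l ∈ (univ : Finset (Fin n)), ∑ s ∈ Ico s₀ (s₀ + S),
        ∑ q ∈ (a l * s + b l).primeFactors.filter (fun q => Q < q ∧ ¬ q ∣ a l), 1 / (q : ℝ) ≤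
        (S : ℝ) / Q + (1 + Real.log ((C * S : ℕ) : ℝ)) := by
      intro l _
      refine Averaging_one (a l) (b l) Q s₀ S (C * S) (ha l) (by omega) ?_
      have h2 : a l * (s₀ + S) ≤ A * (s₀ + S) := Nat.mul_le_mul_right _ (haA l)
      have h3 : A * (s₀ + S) ≤ A * (s₀ + 1) * S := by
        have : s₀ + S ≤ (s₀ + 1) * S := by nlinarith
        calc A * (s₀ + S) ≤ A * ((s₀ + 1) * S) := Nat.mul_le_mul_left _ this
          _ = A * (s₀ + 1) * S := by ring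
      have h4 : B ≤ B * S := Nat.le_mul_of_pos_right _ hSpos
      have h5 := hbB l
      have h6 : C * S = A * (s₀ + 1) * S + B * S + S := by rw [hC]; ring
      omega
    refine (sum_le_sum h1).trans ?_
    rw [sum_const, card_univ, Fintype.card_fin, nsmul_eq_mul]
    have hnK : (n : ℝ) ≤ K := by exact_mod_cast hn
    have hpos : 0 ≤ (S : ℝ) / Q + (1 + Real.log ((C * S : ℕ) : ℝ)) := by
      have : 0 ≤ Real.log ((C * S : ℕ) : ℝ) := Real.log_natCast_nonneg _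
      positivity
    gcongr
  have hlow : (S : ℝ) * δ < ∑ s ∈ Ico s₀ (s₀ + S), ∑ l,
      ∑ q ∈ (a l * s + b l).primeFactors.filter (fun q => Q < q ∧ ¬ q ∣ a l), 1 / (q : ℝ) := by
    have h1 : ∑ s ∈ Ico s₀ (s₀ + S), δ < ∑ s ∈ Ico s₀ (s₀ + S), ∑ l,
        ∑ q ∈ (a l * s + b l).primeFactors.filter (fun q => Q < q ∧ ¬ q ∣ a l), 1 / (q : ℝ) := by
      refine sum_lt_sum_of_nonempty ⟨s₀, by rw [mem_Ico]; omega⟩ ?_
      intro s hs
      rw [mem_Ico] at hs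
      exact hcon s hs.1
    rw [sum_const, Nat.card_Ico, Nat.add_sub_cancel_left, nsmul_eq_mul] at h1
    exact h1
  have hQ2 : (K : ℝ) * ((S : ℝ) / Q) ≤ δ / 2 * S := by
    have hQR : (0 : ℝ) < Q := by
      have : 0 < Q := by omega
      exact_mod_cast this
    have h1 : 2 * (K : ℝ) / δ < Q := by
      refine hQ₁.trans_le ?_
      have : Q₁ ≤ Q := by omega
      exact_mod_cast this
    rw [div_lt_iff₀ hδ] at h1
    rw [mul_div_assoc', div_le_iff₀ hQR]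
    nlinarith
  nlinarith

end Pool.Agent.Work.MP_2beaeb_nt
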