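import Mathlib

/-! # MP_2beaeb_nt: definitions -/

namespace Pool.Agent.Work.MP_2beaeb_nt

open Finset
open scoped ArithmeticFunction.sigma

/-- the abundancy `σ(m)/m` -/
noncomputable def hab (m : ℕ) : ℝ := (σ 1 m : ℝ) / m

/-- the local target `∑_A log(p/(p-1)) - ∑_B log(p/(p-1))` -/
noncomputable def target (A B : Finset ℕ) : ℝ :=
  ∑ p ∈ A, Real.log ((p : ℝ) / (p - 1)) - ∑ p ∈ B, Real.log ((p : ℝ) / (p - 1))

end Pool.Agent.Work.MP_2beaeb_nt
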