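import Pool.Agent.Work.MP_2beaeb_nt.Averaging

/-! # choice of the differences -/

namespace Pool.Agent.Work.MP_2beaeb_nt

open Finset
open scoped ArithmeticFunction.sigma

/-- the invariant of the construction after `m` steps -/
def Diffs_Inv (Q M : ℕ) (r g : ℕ → ℕ) (m : ℕ) (B : ℝ) : Prop :=
  (∀ i j, i < j → j < m → g i < g j) ∧
  (∀ i, i < m → g i ≡ r i [MOD M]) ∧
  (∀ q, q.Prime → Q < q → ∀ i j i' j', i < j → j < m → i' < j' → j' < m →
    q ∣ g j - g i → q ∣ g j' - g i' → i = i' ∧ j = j') ∧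
  ∀ S : Finset ℕ, (∀ q ∈ S, q.Prime ∧ Q < q ∧ ∃ i j, i < j ∧ j < m ∧ q ∣ g j - g i) →
    ∑ q ∈ S, 1 / (q : ℝ) ≤ B

/-- a class modulo `q` which avoids `m < q` given numbers -/
theorem Diffs_avoid (g : ℕ → ℕ) (m q : ℕ) (hm : m < q) :
    ∃ y : ℕ, ∀ i, i < m → ¬ g i ≡ y [MOD q] := by
  have hq : 0 < q := by omega
  have hcard : ((range m).image (fun i => g i % q)).card < (range q).card := by
    refine lt_of_le_of_lt card_image_le ?_
    rw [card_range, card_range]
    exact hm
  obtain ⟨y, hy, hy'⟩ := exists_mem_notMem_of_card_lt_card hcard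
  refine ⟨y, ?_⟩
  intro i hi hmod
  apply hy'
  rw [mem_image]
  refine ⟨i, mem_range.2 hi, ?_⟩
  rw [mem_range] at hy
  have h1 : g i % q = y % q := hmod
  rw [h1, Nat.mod_eq_of_lt hy]

theorem Diffs_step (k : ℕ) (δ : ℝ) (Q₀ : ℕ)
    (hQ₀ : ∀ (n : ℕ), n ≤ k →
    ∀ (a b : Fin n → ℕ), (∀ l, 0 < a l) → ∀ Q : ℕ, Q₀ ≤ Q → ∀ s₀ : ℕ, ∃ s : ℕ, s₀ ≤ s ∧
      ∑ l, ∑ q ∈ (a l * s + b l).primeFactors.filter (fun q => Q < q ∧ ¬ q ∣ a l), 1 / (q : ℝ) ≤ δ)
    (Q : ℕ) (hQ : Q₀ ≤ Q) (hkQ : k ≤ Q) (M : ℕ) (hM : 0 < M)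
    (hMQ : ∀ p, p.Prime → p ∣ M → p ≤ Q) (r g : ℕ → ℕ) (m : ℕ) (hm : m ≤ k) (B : ℝ)
    (hg : Diffs_Inv Q M r g m B) : ∃ g', Diffs_Inv Q M r g' (m + 1) (B + δ) := by
  obtain ⟨hmono, hmod, huniq, hsum⟩ := hg
  -- the old primes
  set P : ℕ := ∏ j ∈ range m, ∏ i ∈ range j, (g j - g i) with hP
  have hP0 : P ≠ 0 := by
    rw [hP, prod_ne_zero_iff]
    intro j hj
    rw [prod_ne_zero_iff]
    intro i hi
    have := hmono i j (mem_range.1 hi) (mem_range.1 hj)
    omega
  set T : Finset ℕ := P.primeFactors.filter (fun q => Q < q) with hT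
  have hTmem : ∀ q i j, q.Prime → Q < q → i < j → j < m → q ∣ g j - g i → q ∈ T := by
    intro q i j hq hQq hij hj hd
    rw [hT, mem_filter, Nat.mem_primeFactors]
    refine ⟨⟨hq, ?_, hP0⟩, hQq⟩
    have h1 : (g j - g i) ∣ ∏ i ∈ range j, (g j - g i) :=
      dvd_prod_of_mem (fun i => g j - g i) (mem_range.2 hij)
    have h2 : (∏ i ∈ range j, (g j - g i)) ∣ P :=
      dvd_prod_of_mem (fun j => ∏ i ∈ range j, (g j - g i)) (mem_range.2 hj)
    exact hd.trans (h1.trans h2)
  have hTprime : ∀ q ∈ T, q.Prime ∧ Q < q := by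
    intro q hq
    rw [hT, mem_filter, Nat.mem_primeFactors] at hq
    exact ⟨hq.1.1, hq.2⟩
  -- avoided classes
  have hy : ∀ q : ℕ, ∃ y : ℕ, q ∈ T → ∀ i, i < m → ¬ g i ≡ y [MOD q] := by
    intro q
    by_cases h : q ∈ T
    · obtain ⟨y, hy⟩ := Diffs_avoid g m q (by have := (hTprime q h).2; omega)
      exact ⟨y, fun _ => hy⟩
    · exact ⟨0, fun h' => absurd h' h⟩
  choose y hy using hy
  have hcopT : Set.Pairwise (T : Set ℕ) (Function.onFun Nat.Coprime (fun q : ℕ => q)) := by
    intro p hp q hq hpq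
    exact (Nat.coprime_primes (hTprime p hp).1 (hTprime q hq).1).2 hpq
  obtain ⟨c₁, hc₁⟩ := Nat.chineseRemainderOfFinset y (fun q : ℕ => q) T
    (fun q hq => (hTprime q hq).1.ne_zero) hcopT
  set D : ℕ := ∏ q ∈ T, q with hD
  have hDpos : 0 < D := by
    rw [hD]
    exact prod_pos (fun q hq => (hTprime q hq).1.pos)
  have hMD : Nat.Coprime M D := by
    rw [hD]
    refine Nat.Coprime.prod_right ?_
    intro q hq
    rw [Nat.coprime_comm, (hTprime q hq).1.coprime_iff_not_dvd]
    intro hd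
    have h1 := hMQ q (hTprime q hq).1 hd
    have h2 := (hTprime q hq).2
    omega
  obtain ⟨c, hcM, hcD⟩ := Nat.chineseRemainder hMD (r m) c₁
  set G : ℕ := ∑ i ∈ range m, g i + 1 with hG
  have hgG : ∀ i, i < m → g i < G := by
    intro i hi
    have := single_le_sum (f := g) (fun _ _ => Nat.zero_le _) (mem_range.2 hi)
    omega
  have hMDpos : 0 < M * D := Nat.mul_pos hM hDpos
  set c₂ : ℕ := c + M * D * G with hc₂
  have hgc₂ : ∀ i, i < m → g i < c₂ := by
    intro i hi
    have h1 := hgG i hi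
    have h2 : G ≤ M * D * G := Nat.le_mul_of_pos_left _ hMDpos
    omega
  obtain ⟨s, -, hs⟩ := hQ₀ m hm (fun _ => M * D) (fun l => c₂ - g l) (fun _ => hMDpos) Q hQ 0
  set w : ℕ := M * D * s + c₂ with hw
  have hgw : ∀ i, i < m → g i < w := by
    intro i hi
    have := hgc₂ i hi
    omega
  have hwsub : ∀ i, i < m → w - g i = M * D * s + (c₂ - g i) := by
    intro i hi
    have := hgc₂ i hi
    omega
  have hwM : w ≡ r m [MOD M] := by
    have h1 : w = M * (D * s + D * G) + c := by rw [hw, hc₂]; ring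
    rw [h1]
    have h2 : M * (D * s + D * G) + c ≡ 0 + c [MOD M] :=
      Nat.ModEq.add_right c ((Nat.modEq_zero_iff_dvd).2 (dvd_mul_right _ _))
    rw [zero_add] at h2
    exact h2.trans hcM
  have hwT : ∀ q ∈ T, w ≡ y q [MOD q] := by
    intro q hq
    have hqD : q ∣ D := dvd_prod_of_mem (fun q => q) hq
    have h1 : w = D * (M * s + M * G) + c := by rw [hw, hc₂]; ring
    have h2 : D * (M * s + M * G) + c ≡ 0 + c [MOD q] :=
      Nat.ModEq.add_right c ((Nat.modEq_zero_iff_dvd).2 (hqD.mul_right _))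
    rw [zero_add] at h2
    rw [h1]
    exact h2.trans ((hcD.of_dvd hqD).trans (hc₁ q hq))
  have hwnd : ∀ q ∈ T, ∀ i, i < m → ¬ q ∣ w - g i := by
    intro q hq i hi hd
    have h1 : g i ≡ w [MOD q] := (Nat.modEq_iff_dvd' (hgw i hi).le).2 hd
    exact hy q hq i hi (h1.trans (hwT q hq))
  refine ⟨Function.update g m w, ?_, ?_, ?_, ?_⟩
  · intro i j hij hj
    rcases Nat.lt_succ_iff_lt_or_eq.1 hj with h | h
    · rw [Function.update_of_ne (by omega), Function.update_of_ne (by omega)]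
      exact hmono i j hij h
    · subst h
      rw [Function.update_self, Function.update_of_ne (by omega)]
      exact hgw i hij
  · intro i hi
    rcases Nat.lt_succ_iff_lt_or_eq.1 hi with h | h
    · rw [Function.update_of_ne (by omega)]
      exact hmod i h
    · subst h
      rw [Function.update_self]
      exact hwM
  · intro q hq hQq i j i' j' hij hj hij' hj' hd hd'
    rcases Nat.lt_succ_iff_lt_or_eq.1 hj with h | h
    · rw [Function.update_of_ne (by omega), Function.update_of_ne (by omega)] at hd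
      rcases Nat.lt_succ_iff_lt_or_eq.1 hj' with h' | h'
      · rw [Function.update_of_ne (by omega), Function.update_of_ne (by omega)] at hd'
        exact huniq q hq hQq i j i' j' hij h hij' h' hd hd'
      · exfalso
        subst h'
        rw [Function.update_self, Function.update_of_ne (by omega)] at hd'
        exact hwnd q (hTmem q i j hq hQq hij h hd) i' hij' hd'
    · subst h
      rw [Function.update_self, Function.update_of_ne (by omega)] at hd
      rcases Nat.lt_succ_iff_lt_or_eq.1 hj' with h' | h'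
      · exfalso
        rw [Function.update_of_ne (by omega), Function.update_of_ne (by omega)] at hd'
        exact hwnd q (hTmem q i' j' hq hQq hij' h' hd') i hij hd
      · subst h'
        rw [Function.update_self, Function.update_of_ne (by omega)] at hd'
        refine ⟨?_, rfl⟩
        by_contra hne
        have hmi := hgw i hij
        have hmi' := hgw i' hij'
        rcases lt_or_gt_of_ne hne with hlt | hlt
        · have h1 := hmono i i' hlt hij'
          have h2 : g i' - g i = (w - g i) - (w - g i') := by omega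
          have h3 : q ∣ g i' - g i := by
            rw [h2]
            exact Nat.dvd_sub hd hd'
          exact hwnd q (hTmem q i i' hq hQq hlt hij' h3) i hij hd
        · have h1 := hmono i' i hlt hij
          have h2 : g i - g i' = (w - g i') - (w - g i) := by omega
          have h3 : q ∣ g i - g i' := by
            rw [h2]
            exact Nat.dvd_sub hd' hd
          exact hwnd q (hTmem q i' i hq hQq hlt hij h3) i hij hd
  · intro S hS
    classical
    rw [← sum_filter_add_sum_filter_not S (fun q => ∃ i j, i < j ∧ j < m ∧ q ∣ g j - g i)]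
    refine add_le_add ?_ ?_
    · refine hsum _ ?_
      intro q hq
      rw [mem_filter] at hq
      exact ⟨(hS q hq.1).1, (hS q hq.1).2.1, hq.2⟩
    · refine le_trans ?_ hs
      have h1 : ∀ q ∈ S.filter (fun q => ¬ ∃ i j, i < j ∧ j < m ∧ q ∣ g j - g i),
          ∃ l : Fin m, q ∣ w - g l ∧ q.Prime ∧ Q < q ∧ ¬ q ∣ M * D := by
        intro q hq
        rw [mem_filter] at hq
        obtain ⟨hqS, hqn⟩ := hq
        obtain ⟨hqp, hQq, i, j, hij, hj, hd⟩ := hS q hqS
        rcases Nat.lt_succ_iff_lt_or_eq.1 hj with h | h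
        · exfalso
          rw [Function.update_of_ne (by omega), Function.update_of_ne (by omega)] at hd
          exact hqn ⟨i, j, hij, h, hd⟩
        · subst h
          rw [Function.update_self, Function.update_of_ne (by omega)] at hd
          refine ⟨⟨i, hij⟩, hd, hqp, hQq, ?_⟩
          intro hqMD
          rcases (hqp.dvd_mul).1 hqMD with h3 | h3
          · have := hMQ q hqp h3
            omega
          · obtain ⟨p, hpT, hqp'⟩ := (hqp.prime.dvd_finsetProd_iff (fun q => q)).1 h3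
            have h4 : q = p := (Nat.prime_dvd_prime_iff_eq hqp (hTprime p hpT).1).1 hqp'
            exact hwnd q (h4 ▸ hpT) i hij hd
      have h2 : ∑ q ∈ S.filter (fun q => ¬ ∃ i j, i < j ∧ j < m ∧ q ∣ g j - g i), 1 / (q : ℝ) ≤
          ∑ q ∈ S.filter (fun q => ¬ ∃ i j, i < j ∧ j < m ∧ q ∣ g j - g i),
            ∑ l : Fin m, if q ∣ w - g l ∧ q.Prime ∧ Q < q ∧ ¬ q ∣ M * D then 1 / (q : ℝ) else 0 := by
        refine sum_le_sum ?_
        intro q hq
        obtain ⟨l, hl⟩ := h1 q hq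
        have h3 := single_le_sum (f := fun l : Fin m =>
          if q ∣ w - g l ∧ q.Prime ∧ Q < q ∧ ¬ q ∣ M * D then 1 / (q : ℝ) else 0)
          (fun l _ => by split_ifs <;> positivity) (mem_univ l)
        simp only [hl, not_false_iff, and_self, if_true] at h3
        simpa [hl] using h3
      refine h2.trans ?_
      rw [sum_comm]
      refine sum_le_sum ?_
      intro l _
      rw [← sum_filter]
      refine sum_le_sum_of_subset_of_nonneg ?_ (fun q _ _ => by positivity)
      intro q hq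
      rw [mem_filter] at hq
      rw [mem_filter, Nat.mem_primeFactors]
      have h5 := hwsub l l.2
      have h6 := hgw l l.2
      refine ⟨⟨hq.2.2.1, ?_, ?_⟩, hq.2.2.2.1, hq.2.2.2.2⟩
      · have := hq.2.1
        rw [h5] at this
        exact this
      · omega

theorem exists_diffs (k : ℕ) (δ : ℝ) (hδ : 0 < δ) : ∃ Q₀ : ℕ, ∀ Q : ℕ, Q₀ ≤ Q → ∀ M : ℕ, 0 < M →
    (∀ p, p.Prime → p ∣ M → p ≤ Q) → ∀ r : Fin k → ℕ, ∃ g : Fin k → ℕ, StrictMono g ∧
      (∀ i, g i ≡ r i [MOD M]) ∧
      (∀ q, q.Prime → Q < q → ∀ i j i' j', i < j → i' < j' → q ∣ g j - g i → q ∣ g j' - g i' →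
        i = i' ∧ j = j') ∧
      ∀ S : Finset ℕ, (∀ q ∈ S, q.Prime ∧ Q < q ∧ ∃ i j, i < j ∧ q ∣ g j - g i) →
        ∑ q ∈ S, 1 / (q : ℝ) ≤ δ := by
  have hk : (0 : ℝ) < (k : ℝ) + 1 := by positivity
  obtain ⟨Q₀, hQ₀⟩ := averaging k (δ / ((k : ℝ) + 1)) (div_pos hδ hk)
  refine ⟨max Q₀ k, ?_⟩
  intro Q hQ M hM hMQ r
  have hQ1 : Q₀ ≤ Q := le_trans (le_max_left _ _) hQ
  have hQ2 : k ≤ Q := le_trans (le_max_right _ _) hQ
  set r' : ℕ → ℕ := fun i => if h : i < k then r ⟨i, h⟩ else 0 with hr'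
  have hind : ∀ m : ℕ, m ≤ k → ∃ g, Diffs_Inv Q M r' g m ((m : ℝ) * (δ / ((k : ℝ) + 1))) := by
    intro m
    induction m with
    | zero =>
      intro _
      refine ⟨fun _ => 0, ?_, ?_, ?_, ?_⟩
      · intro i j _ hj
        omega
      · intro i hi
        omega
      · intro q _ _ i j i' j' _ hj
        omega
      · intro S hS
        have hSe : S = ∅ := by
          rw [eq_empty_iff_forall_notMem]
          intro q hq
          obtain ⟨_, _, i, j, _, hj, _⟩ := hS q hq
          omega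
        rw [hSe]
        simp
    | succ m ih =>
      intro hm
      obtain ⟨g, hg⟩ := ih (by omega)
      obtain ⟨g', hg'⟩ := Diffs_step k (δ / ((k : ℝ) + 1)) Q₀ hQ₀ Q hQ1 hQ2 M hM hMQ r' g m
        (by omega) _ hg
      refine ⟨g', ?_⟩
      have h1 : ((m + 1 : ℕ) : ℝ) * (δ / ((k : ℝ) + 1)) =
          (m : ℝ) * (δ / ((k : ℝ) + 1)) + δ / ((k : ℝ) + 1) := by
        push_cast
        ring
      rw [h1]
      exact hg'
  obtain ⟨g, hmono, hmod, huniq, hsum⟩ := hind k le_rfl
  refine ⟨fun i => g i, ?_, ?_, ?_, ?_⟩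
  · intro i j hij
    exact hmono i j hij j.2
  · intro i
    have h1 := hmod i i.2
    rw [hr'] at h1
    simpa using h1
  · intro q hq hQq i j i' j' hij hij' hd hd'
    have h1 := huniq q hq hQq i j i' j' hij j.2 hij' j'.2 hd hd'
    exact ⟨Fin.ext h1.1, Fin.ext h1.2⟩
  · intro S hS
    refine (hsum S ?_).trans ?_
    · intro q hq
      obtain ⟨h1, h2, i, j, hij, hd⟩ := hS q hq
      exact ⟨h1, h2, i, j, hij, j.2, hd⟩
    · rw [mul_div_assoc', div_le_iff₀ hk]
      nlinarith

end Pool.Agent.Work.MP_2beaeb_nt
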