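import Pool.Agent.Work.MP_2beaeb_nt.Defs

/-! # valuations for the sets with `x_j - x_i ∣ x_i` -/

namespace Pool.Agent.Work.MP_2beaeb_nt

open Finset

lemma HBSet_fact_iff {p n v : ℕ} (hp : p.Prime) (hn : n ≠ 0) :
    n.factorization p = v ↔ p ^ v ∣ n ∧ ¬ p ^ (v + 1) ∣ n := by
  rw [hp.pow_dvd_iff_le_factorization hn, hp.pow_dvd_iff_le_factorization hn]
  omega

lemma HBSet_fact_modEq {p n v w : ℕ} (hp : p.Prime) (hvw : v < w) (h : n ≡ p ^ v [MOD p ^ w]) :
    n ≠ 0 ∧ n.factorization p = v := by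
  have hv : ∀ u, u ≤ w → (p ^ u ∣ n ↔ p ^ u ∣ p ^ v) := fun u hu =>
    h.dvd_iff (pow_dvd_pow p hu)
  have hn : n ≠ 0 := by
    rintro rfl
    have := (hv w le_rfl).1 (dvd_zero _)
    rw [Nat.pow_dvd_pow_iff_le_right hp.one_lt] at this
    omega
  refine ⟨hn, (HBSet_fact_iff hp hn).2 ⟨(hv v hvw.le).2 dvd_rfl, fun h1 => ?_⟩⟩
  have := (hv (v + 1) hvw).1 h1
  rw [Nat.pow_dvd_pow_iff_le_right hp.one_lt] at this
  omega

lemma HBSet_fact_sub_left {p x y : ℕ} (hp : p.Prime) (hx : x ≠ 0) (hxy : x < y)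
    (h : y.factorization p < x.factorization p) :
    (y - x).factorization p = y.factorization p := by
  have hy : y ≠ 0 := by omega
  obtain ⟨h1, h2⟩ := (HBSet_fact_iff hp hy).1 rfl
  have h3 : p ^ (y.factorization p + 1) ∣ x := (hp.pow_dvd_iff_le_factorization hx).2 h
  refine (HBSet_fact_iff hp (by omega)).2 ⟨Nat.dvd_sub h1
    (dvd_trans (pow_dvd_pow p (Nat.le_succ _)) h3), fun h4 => h2 ?_⟩
  have h5 := dvd_add h4 h3
  rwa [Nat.sub_add_cancel hxy.le] at h5

lemma HBSet_fact_sub_right {p x y : ℕ} (hp : p.Prime) (hx : x ≠ 0) (hxy : x < y)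
    (h : x.factorization p < y.factorization p) :
    (y - x).factorization p = x.factorization p := by
  have hy : y ≠ 0 := by omega
  obtain ⟨h1, h2⟩ := (HBSet_fact_iff hp hx).1 rfl
  have h3 : p ^ (x.factorization p + 1) ∣ y := (hp.pow_dvd_iff_le_factorization hy).2 h
  refine (HBSet_fact_iff hp (by omega)).2 ⟨Nat.dvd_sub
    (dvd_trans (pow_dvd_pow p (Nat.le_succ _)) h3) h1, fun h4 => h2 ?_⟩
  have h5 := Nat.dvd_sub h3 h4
  rwa [Nat.sub_sub_self hxy.le] at h5

/-- the part of `n` made of the primes `> Q` -/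
def rough (Q n : ℕ) : ℕ := ∏ q ∈ n.primeFactors.filter (fun q => Q < q), q ^ n.factorization q

lemma rough_pos (Q n : ℕ) : 0 < rough Q n :=
  prod_pos fun q hq => pow_pos (Nat.prime_of_mem_primeFactors (mem_filter.1 hq).1).pos _

lemma rough_prime {Q n q : ℕ} (hq : q.Prime) (h : q ∣ rough Q n) : Q < q ∧ q ∣ n := by
  obtain ⟨r, hr, hqr⟩ := (hq.prime.dvd_finsetProd_iff _).1 h
  rw [mem_filter] at hr
  have hrp := Nat.prime_of_mem_primeFactors hr.1
  have := (Nat.prime_dvd_prime_iff_eq hq hrp).1 (hq.dvd_of_dvd_pow hqr)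
  subst this
  exact ⟨hr.2, Nat.dvd_of_mem_primeFactors hr.1⟩

lemma rough_pow {Q n q : ℕ} (hq : q.Prime) (hQ : Q < q) :
    q ^ n.factorization q ∣ rough Q n := by
  by_cases h : q ∈ n.primeFactors
  · exact dvd_prod_of_mem (fun q => q ^ n.factorization q) (mem_filter.2 ⟨h, hQ⟩)
  · rw [← Nat.support_factorization, Finsupp.notMem_support_iff] at h
    rw [h, pow_zero]
    exact one_dvd _

/-- the residues of the `x i` -/
def Res (k : ℕ) (A B : Finset ℕ) (E Q : ℕ) (x : Fin k → ℕ) : Prop :=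
  ∀ p : ℕ, p.Prime → p ≤ Q → ∀ i : Fin k,
    (p ∈ A → x i ≡ p ^ ((k - i) * E) [MOD p ^ ((k + 1) * E)]) ∧
    (p ∉ A → p ∈ B → x i ≡ p ^ ((i + 1) * E) [MOD p ^ ((k + 1) * E)]) ∧
    (p ∉ A → p ∉ B → x i ≡ i + 1 [MOD p])

lemma HBSet_pair {k : ℕ} {A B : Finset ℕ} (hA : ∀ p ∈ A, p.Prime) (hB : ∀ p ∈ B, p.Prime)
    (hAB : Disjoint A B) (hk : ∀ p, p.Prime → p ≤ k → p ∈ A ∪ B) {E Q : ℕ} (hE : 1 ≤ E)
    (hAQ : ∀ p ∈ A ∪ B, p ≤ Q) {x : Fin k → ℕ} (hx0 : ∀ i, 0 < x i)
    (hres : Res k A B E Q x) {i j : Fin k} (hij : i < j) (hlt : x i < x j)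
    (hr : ∀ q : ℕ, q.Prime → Q < q → (x j - x i).factorization q ≤ (x i).factorization q) :
    (x j - x i) ∣ x i ∧ 0 < x i / (x j - x i) ∧ (∀ p ∈ A, p ^ E ∣ x i / (x j - x i)) ∧
      (∀ p ∈ B, p ^ E ∣ x i / (x j - x i) + 1) ∧
      ∀ q : ℕ, q.Prime → q ≤ Q → q ∉ A ∪ B → ¬ q ∣ (x i / (x j - x i)) * (x i / (x j - x i) + 1) := by
  have hi := i.isLt
  have hj := j.isLt
  have hij' : (i : ℕ) < j := hij
  -- valuations
  have vA : ∀ p ∈ A, ∀ l : Fin k, (x l).factorization p = (k - l) * E := by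
    intro p hp l
    have hl := l.isLt
    refine (HBSet_fact_modEq (hA p hp) ?_ (((hres p (hA p hp) (hAQ p (mem_union_left _ hp))) l).1 hp)).2
    have : (k - l) < k + 1 := by omega
    nlinarith
  have vB : ∀ p ∈ B, ∀ l : Fin k, (x l).factorization p = (l + 1) * E := by
    intro p hp l
    have hl := l.isLt
    have hpA : p ∉ A := fun h => disjoint_left.1 hAB h hp
    refine (HBSet_fact_modEq (hB p hp) ?_
      (((hres p (hB p hp) (hAQ p (mem_union_right _ hp))) l).2.1 hpA hp)).2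
    have : (l : ℕ) + 1 < k + 1 := by omega
    nlinarith
  have dA : ∀ p ∈ A, (x j - x i).factorization p = (k - j) * E := by
    intro p hp
    rw [HBSet_fact_sub_left (hA p hp) (hx0 i).ne' hlt, vA p hp j]
    rw [vA p hp i, vA p hp j]
    have : k - (j : ℕ) < k - i := by omega
    nlinarith
  have dB : ∀ p ∈ B, (x j - x i).factorization p = (i + 1) * E := by
    intro p hp
    rw [HBSet_fact_sub_right (hB p hp) (hx0 i).ne' hlt, vB p hp i]
    rw [vB p hp i, vB p hp j]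
    nlinarith
  have hC : ∀ q : ℕ, q.Prime → q ≤ Q → q ∉ A ∪ B → (∀ l : Fin k, ¬ q ∣ x l) ∧ ¬ q ∣ (x j - x i) := by
    intro q hq hqQ hqAB
    rw [mem_union, not_or] at hqAB
    have hqk : k < q := by
      by_contra h
      have := hk q hq (by omega)
      rw [mem_union] at this
      tauto
    have hl : ∀ l : Fin k, x l ≡ l + 1 [MOD q] := fun l => (hres q hq hqQ l).2.2 hqAB.1 hqAB.2
    refine ⟨fun l hd => ?_, fun hd => ?_⟩
    · have h1 := ((hl l).dvd_iff dvd_rfl).1 hd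
      have := Nat.le_of_dvd (by omega) h1
      have := l.isLt
      omega
    · have h1 : x i ≡ x j [MOD q] := (Nat.modEq_iff_dvd' hlt.le).2 hd
      have h2 : (i : ℕ) + 1 ≡ j + 1 [MOD q] := ((hl i).symm.trans h1).trans (hl j)
      have h3 := h2.eq_of_lt_of_lt (by omega) (by omega)
      omega
  have hd : (x j - x i) ∣ x i := by
    rw [← Nat.factorization_le_iff_dvd (by omega) (hx0 i).ne']
    intro q
    by_cases hq : q.Prime
    · by_cases hqQ : q ≤ Q
      · by_cases hqAB : q ∈ A ∪ B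
        · rcases mem_union.1 hqAB with h | h
          · rw [dA q h, vA q h i]
            have : k - (j : ℕ) ≤ k - i := by omega
            nlinarith
          · rw [dB q h, vB q h i]
        · rw [Nat.factorization_eq_zero_of_not_dvd (hC q hq hqQ hqAB).2]
          exact Nat.zero_le _
      · exact hr q hq (by omega)
    · rw [Nat.factorization_eq_zero_of_not_prime _ hq]
      exact Nat.zero_le _
  set Δ := x j - x i with hΔ
  have hΔ0 : 0 < Δ := by omega
  set u := x i / Δ with hu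
  have hui : u * Δ = x i := Nat.div_mul_cancel hd
  have huj : (u + 1) * Δ = x j := by rw [add_mul, hui, one_mul, hΔ]; omega
  have hu0 : 0 < u := by
    rcases Nat.eq_zero_or_pos u with h | h
    · have := hx0 i
      rw [← hui, h] at this
      simp at this
    · exact h
  refine ⟨hd, hu0, fun p hp => ?_, fun p hp => ?_, fun q hq hqQ hqAB hqu => ?_⟩
  · rw [(hA p hp).pow_dvd_iff_le_factorization hu0.ne']
    have h1 := vA p hp i
    rw [← hui, Nat.factorization_mul hu0.ne' hΔ0.ne', Finsupp.add_apply, dA p hp] at h1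
    have : k - (j : ℕ) + 1 ≤ k - i := by omega
    nlinarith
  · rw [(hB p hp).pow_dvd_iff_le_factorization (by omega)]
    have h1 := vB p hp j
    rw [← huj, Nat.factorization_mul (by omega) hΔ0.ne', Finsupp.add_apply, dB p hp] at h1
    nlinarith
  · rcases hq.dvd_mul.1 hqu with h | h
    · exact (hC q hq hqQ hqAB).1 i (hui ▸ dvd_mul_of_dvd_left h _)
    · exact (hC q hq hqQ hqAB).1 j (huj ▸ dvd_mul_of_dvd_left h _)

end Pool.Agent.Work.MP_2beaeb_nt
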