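import Pool.Agent.Work.MP_2beaeb_nt.Diffs
import Pool.Agent.Work.MP_2beaeb_nt.HBSetA

/-! # sets with `x_j - x_i ∣ x_i` and prescribed ratios -/

namespace Pool.Agent.Work.MP_2beaeb_nt

open Finset
open scoped ArithmeticFunction.sigma

lemma HBSet_sum_union (F G H : Finset ℕ) :
    ∑ q ∈ F ∪ (G ∪ H), 1 / (q : ℝ) ≤ ∑ q ∈ F, 1 / (q : ℝ) + (∑ q ∈ G, 1 / (q : ℝ) +
      ∑ q ∈ H, 1 / (q : ℝ)) := by
  have h : ∀ A B : Finset ℕ, ∑ q ∈ A ∪ B, 1 / (q : ℝ) ≤
      ∑ q ∈ A, 1 / (q : ℝ) + ∑ q ∈ B, 1 / (q : ℝ) := by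
    intro A B
    rw [← sum_union_inter]
    have : 0 ≤ ∑ q ∈ A ∩ B, 1 / (q : ℝ) := sum_nonneg fun _ _ => by positivity
    linarith
  have h1 := h F (G ∪ H)
  have h2 := h G H
  linarith

theorem exists_set (k : ℕ) {A B : Finset ℕ} (hA : ∀ p ∈ A, p.Prime) (hB : ∀ p ∈ B, p.Prime)
    (hAB : Disjoint A B) (hk : ∀ p, p.Prime → p ≤ k → p ∈ A ∪ B) (E : ℕ) (hE : 1 ≤ E) (δ : ℝ)
    (hδ : 0 < δ) : ∃ x : Fin k → ℕ, (∀ i, 0 < x i) ∧ StrictMono x ∧
      (∀ i j, i < j → (x j - x i) ∣ x i) ∧ ∀ i j, i < j →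
        0 < x i / (x j - x i) ∧ (∀ p ∈ A, p ^ E ∣ x i / (x j - x i)) ∧
        (∀ p ∈ B, p ^ E ∣ x i / (x j - x i) + 1) ∧
        ∑ q ∈ ((x i / (x j - x i)) * (x i / (x j - x i) + 1)).primeFactors \ (A ∪ B),
          1 / (q : ℝ) ≤ δ := by
  classical
  obtain ⟨Qa, hQa⟩ := averaging (k * k * 2) (δ / 2) (by positivity)
  obtain ⟨Qd, hQd⟩ := exists_diffs k (δ / 2) (by positivity)
  set Q : ℕ := Qa + Qd + k + ∑ p ∈ A ∪ B, p with hQ
  have hAQ : ∀ p ∈ A ∪ B, p ≤ Q := by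
    intro p hp
    have := single_le_sum (f := fun p : ℕ => p) (fun _ _ => Nat.zero_le _) hp
    omega
  set t := (Icc 1 Q).filter Nat.Prime with ht
  have htm : ∀ p : ℕ, p ∈ t ↔ p.Prime ∧ p ≤ Q := by
    intro p
    rw [ht, mem_filter, mem_Icc]
    exact ⟨fun h => ⟨h.2, h.1.2⟩, fun h => ⟨⟨h.1.one_lt.le, h.2⟩, h.1⟩⟩
  set s : ℕ → ℕ := fun p => if p ∈ A ∪ B then p ^ ((k + 1) * E) else p with hs
  have hsdvd : ∀ p, p.Prime → ∀ q, q.Prime → q ∣ s p → q = p := by
    intro p hp q hq h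
    simp only [hs] at h
    split_ifs at h
    · exact (Nat.prime_dvd_prime_iff_eq hq hp).1 (hq.dvd_of_dvd_pow h)
    · exact (Nat.prime_dvd_prime_iff_eq hq hp).1 h
  have hs0 : ∀ p, p.Prime → s p ≠ 0 := by
    intro p hp
    simp only [hs]
    split_ifs
    · exact (pow_pos hp.pos _).ne'
    · exact hp.ne_zero
  set M : ℕ := ∏ p ∈ t, s p with hM
  have hM0 : 0 < M := prod_pos fun p hp => Nat.pos_of_ne_zero (hs0 p ((htm p).1 hp).1)
  have hMp : ∀ p, p.Prime → p ∣ M → p ≤ Q := by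
    intro p hp h
    obtain ⟨q, hq, hpq⟩ := (hp.prime.dvd_finsetProd_iff _).1 h
    have hq' := (htm q).1 hq
    have := hsdvd q hq'.1 p hp hpq
    omega
  have hcrt : ∀ i : Fin k, ∃ r : ℕ, ∀ p ∈ t, r ≡ (if p ∈ A then p ^ ((k - i) * E) else
      if p ∈ B then p ^ ((i + 1) * E) else i + 1) [MOD s p] := by
    intro i
    have pp : Set.Pairwise (t : Set ℕ) (Function.onFun Nat.Coprime s) := by
      intro p hp q hq hpq
      have hp' := ((htm p).1 hp).1
      have hq' := ((htm q).1 hq).1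
      refine Nat.coprime_of_dvd fun l hl h1 h2 => hpq ?_
      rw [← hsdvd p hp' l hl h1, ← hsdvd q hq' l hl h2]
    obtain ⟨r, hr⟩ := Nat.chineseRemainderOfFinset (fun p => if p ∈ A then p ^ ((k - i) * E) else
      if p ∈ B then p ^ (((i : ℕ) + 1) * E) else (i : ℕ) + 1) s t
      (fun p hp => hs0 p ((htm p).1 hp).1) pp
    exact ⟨r, hr⟩
  choose r hr using hcrt
  obtain ⟨g, hgm, hgr, hgu, hgs⟩ := hQd Q (by omega) M hM0 hMp r
  -- residues
  have hRes : ∀ X : ℕ, M ∣ X → Res k A B E Q (fun i => X + g i) := by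
    intro X hX p hp hpQ i
    have hpt : p ∈ t := (htm p).2 ⟨hp, hpQ⟩
    have h1 : X + g i ≡ g i [MOD M] := by
      have : X ≡ 0 [MOD M] := (Nat.modEq_zero_iff_dvd).2 hX
      simpa using this.add_right (g i)
    have h2 : X + g i ≡ (if p ∈ A then p ^ ((k - i) * E) else
      if p ∈ B then p ^ ((i + 1) * E) else i + 1) [MOD s p] :=
      ((h1.trans (hgr i)).of_dvd (dvd_prod_of_mem s hpt)).trans (hr i p hpt)
    simp only [hs] at h2
    refine ⟨fun hpA => ?_, fun hpA hpB => ?_, fun hpA hpB => ?_⟩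
    · rwa [if_pos hpA, if_pos (mem_union_left _ hpA)] at h2
    · rwa [if_neg hpA, if_pos hpB, if_pos (mem_union_right _ hpB)] at h2
    · rwa [if_neg hpA, if_neg hpB, if_neg (by rw [mem_union]; tauto)] at h2
  -- the rough parts of the differences
  set T : Finset (Fin k × Fin k) := univ.filter (fun ij => ij.1 < ij.2) with hT
  set ρ : Fin k × Fin k → ℕ := fun ij => rough Q (g ij.2 - g ij.1) with hρ
  have hTm : ∀ ij : Fin k × Fin k, ij ∈ T ↔ ij.1 < ij.2 := fun ij => by simp [hT]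
  have hρ0 : ∀ ij ∈ T, ρ ij ≠ 0 := fun ij _ => (rough_pos _ _).ne'
  have hρc : Set.Pairwise (T : Set (Fin k × Fin k)) (Function.onFun Nat.Coprime ρ) := by
    intro a ha b hb hab
    refine Nat.coprime_of_dvd fun l hl h1 h2 => hab ?_
    obtain ⟨h3, h4⟩ := rough_prime hl h1
    obtain ⟨-, h5⟩ := rough_prime hl h2
    have := hgu l hl h3 a.1 a.2 b.1 b.2 ((hTm a).1 ha) ((hTm b).1 hb) h4 h5
    exact Prod.ext this.1 this.2
  obtain ⟨y, hy⟩ := Nat.chineseRemainderOfFinset (fun ij => g ij.1 * (ρ ij - 1)) ρ T hρ0 hρc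
  set P : ℕ := ∏ ij ∈ T, ρ ij with hP
  have hP0 : 0 < P := prod_pos fun ij _ => rough_pos _ _
  have hPp : ∀ q : ℕ, q.Prime → q ∣ P → Q < q ∧ ∃ i j, i < j ∧ q ∣ g j - g i := by
    intro q hq h
    obtain ⟨ij, hij, hqij⟩ := (hq.prime.dvd_finsetProd_iff _).1 h
    obtain ⟨h3, h4⟩ := rough_prime hq hqij
    exact ⟨h3, ij.1, ij.2, (hTm ij).1 hij, h4⟩
  have hMP : M.Coprime P := Nat.coprime_of_dvd fun l hl h1 h2 => by
    have := hMp l hl h1
    have := (hPp l hl h2).1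
    omega
  obtain ⟨c₀, hc₀M, hc₀P⟩ := Nat.chineseRemainder hMP 0 y
  set c : ℕ := c₀ + M * P with hc
  have hc0 : 0 < c := by
    have := Nat.mul_pos hM0 hP0
    omega
  have hXM : ∀ n : ℕ, M ∣ c + M * P * n := by
    intro n
    refine dvd_add (dvd_add ((Nat.modEq_zero_iff_dvd).1 hc₀M) (dvd_mul_right _ _)) ?_
    exact dvd_mul_of_dvd_left (dvd_mul_right _ _) _
  have hXρ : ∀ n : ℕ, ∀ ij ∈ T, ρ ij ∣ c + M * P * n + g ij.1 := by
    intro n ij hij
    have h1 : ρ ij ∣ P := dvd_prod_of_mem ρ hij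
    have h2 : c₀ ≡ g ij.1 * (ρ ij - 1) [MOD ρ ij] := (hc₀P.of_dvd h1).trans (hy ij hij)
    have h3 : c₀ + g ij.1 ≡ g ij.1 * (ρ ij - 1) + g ij.1 [MOD ρ ij] := h2.add_right _
    have h4 : g ij.1 * (ρ ij - 1) + g ij.1 = g ij.1 * ρ ij := by
      obtain ⟨w, hw⟩ : ∃ w, ρ ij = w + 1 := ⟨ρ ij - 1, by have := Nat.pos_of_ne_zero (hρ0 ij hij); omega⟩
      rw [hw, Nat.add_sub_cancel]
      ring
    rw [h4] at h3
    have h5 : ρ ij ∣ c₀ + g ij.1 := (h3.dvd_iff dvd_rfl).2 (dvd_mul_left _ _)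
    have e : c + M * P * n + g ij.1 = (c₀ + g ij.1) + P * (M * (n + 1)) := by
      rw [hc]; ring
    rw [e]
    exact dvd_add h5 (dvd_mul_of_dvd_left h1 _)
  -- all pairs, all n
  have hpair : ∀ n : ℕ, ∀ i j : Fin k, i < j →
      (g j - g i) ∣ (c + M * P * n + g i) ∧ 0 < (c + M * P * n + g i) / (g j - g i) ∧
      (∀ p ∈ A, p ^ E ∣ (c + M * P * n + g i) / (g j - g i)) ∧
      (∀ p ∈ B, p ^ E ∣ (c + M * P * n + g i) / (g j - g i) + 1) ∧
      ∀ q : ℕ, q.Prime → q ≤ Q → q ∉ A ∪ B → ¬ q ∣ ((c + M * P * n + g i) / (g j - g i)) *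
        ((c + M * P * n + g i) / (g j - g i) + 1) := by
    intro n i j hij
    have hg := hgm hij
    have e : (c + M * P * n + g j) - (c + M * P * n + g i) = g j - g i := by omega
    have h := HBSet_pair hA hB hAB hk (E := E) (Q := Q) hE hAQ
      (x := fun i => c + M * P * n + g i) (fun i => by positivity) (hRes _ (hXM n)) hij
      (by simpa using hg) ?_
    · simp only [e] at h
      exact h
    · intro q hq hqQ
      simp only [e]
      rw [← hq.pow_dvd_iff_le_factorization (by positivity)]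
      exact (rough_pow hq hqQ).trans (hXρ n (i, j) ((hTm _).2 hij))
  have hΔMP : ∀ i j : Fin k, i < j → (g j - g i) ∣ M * P := by
    intro i j hij
    have h1 := (hpair 1 i j hij).1
    have h0 := (hpair 0 i j hij).1
    have h := Nat.dvd_sub h1 h0
    have e : c + M * P * 1 + g i - (c + M * P * 0 + g i) = M * P := by
      rw [mul_one, mul_zero]; omega
    rwa [e] at h
  -- the forms
  set aa : (Fin k × Fin k) × Bool → ℕ := fun w =>
    if w.1.1 < w.1.2 then M * P / (g w.1.2 - g w.1.1) else 1 with haa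
  set bb : (Fin k × Fin k) × Bool → ℕ := fun w =>
    if w.1.1 < w.1.2 then (c + g w.1.1) / (g w.1.2 - g w.1.1) + (if w.2 then 1 else 0) else 1
    with hbb
  have haa0 : ∀ w, 0 < aa w := by
    intro w
    simp only [haa]
    split_ifs with h
    · exact Nat.div_pos (Nat.le_of_dvd (Nat.mul_pos hM0 hP0) (hΔMP _ _ h))
        (Nat.sub_pos_of_lt (hgm h))
    · exact one_pos
  set e := Fintype.equivFin ((Fin k × Fin k) × Bool) with he
  obtain ⟨n, -, hn⟩ := hQa (Fintype.card ((Fin k × Fin k) × Bool)) (by simp)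
    (fun l => aa (e.symm l)) (fun l => bb (e.symm l)) (fun l => haa0 _) Q (by omega) 0
  have hn' : ∑ w, ∑ q ∈ (aa w * n + bb w).primeFactors.filter (fun q => Q < q ∧ ¬ q ∣ aa w),
      1 / (q : ℝ) ≤ δ / 2 := by
    rw [← e.symm.sum_comp]
    exact hn
  refine ⟨fun i => c + M * P * n + g i, fun i => by positivity, ?_, ?_, ?_⟩
  · intro i j hij
    have := hgm hij
    simpa using this
  · intro i j hij
    have e1 : (c + M * P * n + g j) - (c + M * P * n + g i) = g j - g i := by omega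
    simp only [e1]
    exact (hpair n i j hij).1
  · intro i j hij
    have e1 : (c + M * P * n + g j) - (c + M * P * n + g i) = g j - g i := by omega
    simp only [e1]
    obtain ⟨h1, h2, h3, h4, h5⟩ := hpair n i j hij
    refine ⟨h2, h3, h4, ?_⟩
    set Δ := g j - g i with hΔ
    have hΔ0 : 0 < Δ := Nat.sub_pos_of_lt (hgm hij)
    set u := (c + M * P * n + g i) / Δ with hu
    have hu1 : aa ((i, j), false) * n + bb ((i, j), false) = u := by
      simp only [haa, hbb, if_pos hij]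
      have h0 := (hpair 0 i j hij).1
      rw [mul_zero, add_zero] at h0
      refine Nat.eq_of_mul_eq_mul_right hΔ0 ?_
      rw [hu, Nat.div_mul_cancel h1]
      have f1 : M * P / Δ * Δ = M * P := Nat.div_mul_cancel (hΔMP i j hij)
      have f2 : (c + g i) / Δ * Δ = c + g i := Nat.div_mul_cancel h0
      simp only [Bool.false_eq_true, if_false, add_zero]
      calc (M * P / Δ * n + (c + g i) / Δ) * Δ = M * P / Δ * Δ * n + (c + g i) / Δ * Δ := by ring
        _ = M * P * n + (c + g i) := by rw [f1, f2]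
        _ = _ := by ring
    have hu2 : aa ((i, j), true) * n + bb ((i, j), true) = u + 1 := by
      rw [← hu1]
      simp only [haa, hbb, if_pos hij, if_true, Bool.false_eq_true, if_false, add_zero]
      ring
    set a₀ := aa ((i, j), false) with ha₀
    have ha₀MP : a₀ ∣ M * P := by
      simp only [ha₀, haa, if_pos hij]
      exact Nat.div_dvd_of_dvd (hΔMP i j hij)
    have hsub : (u * (u + 1)).primeFactors \ (A ∪ B) ⊆
        ((u * (u + 1)).primeFactors \ (A ∪ B)).filter (fun q => q ∣ a₀) ∪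
        (u.primeFactors.filter (fun q => Q < q ∧ ¬ q ∣ a₀) ∪
          (u + 1).primeFactors.filter (fun q => Q < q ∧ ¬ q ∣ a₀)) := by
      intro q hq
      rw [mem_union, mem_union, mem_filter, mem_filter, mem_filter]
      by_cases ha : q ∣ a₀
      · exact Or.inl ⟨hq, ha⟩
      · right
        rw [mem_sdiff, Nat.mem_primeFactors] at hq
        obtain ⟨⟨hqp, hqu, hne⟩, hqAB⟩ := hq
        have hQq : Q < q := by
          by_contra h
          exact h5 q hqp (by omega) hqAB hqu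
        rcases hqp.dvd_mul.1 hqu with h | h
        · exact Or.inl ⟨Nat.mem_primeFactors.2 ⟨hqp, h, h2.ne'⟩, hQq, ha⟩
        · exact Or.inr ⟨Nat.mem_primeFactors.2 ⟨hqp, h, by omega⟩, hQq, ha⟩
    have hS : ∑ q ∈ ((u * (u + 1)).primeFactors \ (A ∪ B)).filter (fun q => q ∣ a₀),
        1 / (q : ℝ) ≤ δ / 2 := by
      refine hgs _ fun q hq => ?_
      rw [mem_filter, mem_sdiff, Nat.mem_primeFactors] at hq
      obtain ⟨⟨⟨hqp, hqu, hne⟩, hqAB⟩, ha⟩ := hq
      have hQq : Q < q := by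
        by_contra h
        exact h5 q hqp (by omega) hqAB hqu
      rcases hqp.dvd_mul.1 (ha.trans ha₀MP) with h | h
      · have := hMp q hqp h
        omega
      · exact ⟨hqp, hQq, (hPp q hqp h).2⟩
    have hG : ∑ q ∈ u.primeFactors.filter (fun q => Q < q ∧ ¬ q ∣ a₀), 1 / (q : ℝ) +
        ∑ q ∈ (u + 1).primeFactors.filter (fun q => Q < q ∧ ¬ q ∣ a₀), 1 / (q : ℝ) ≤ δ / 2 := by
      refine le_trans ?_ hn'
      have h6 : ∑ w ∈ ({((i, j), false), ((i, j), true)} : Finset ((Fin k × Fin k) × Bool)),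
          ∑ q ∈ (aa w * n + bb w).primeFactors.filter (fun q => Q < q ∧ ¬ q ∣ aa w),
            1 / (q : ℝ) ≤
          ∑ w, ∑ q ∈ (aa w * n + bb w).primeFactors.filter (fun q => Q < q ∧ ¬ q ∣ aa w),
            1 / (q : ℝ) :=
        sum_le_sum_of_subset_of_nonneg (subset_univ _) fun w _ _ =>
          sum_nonneg fun _ _ => by positivity
      rw [sum_pair (by simp), hu1, hu2] at h6
      exact h6
    calc _ ≤ _ := sum_le_sum_of_subset_of_nonneg hsub fun _ _ _ => by positivity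
      _ ≤ _ := HBSet_sum_union _ _ _
      _ ≤ δ / 2 + δ / 2 := add_le_add hS hG
      _ = δ := by ring

end Pool.Agent.Work.MP_2beaeb_nt
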