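import Pool.Agent.Work.MP_2beaeb_nt.Signs
import Pool.Agent.Work.MP_2beaeb_nt.Abundancy
import Pool.Agent.Work.MP_2beaeb_nt.HBSet
import Pool.Agent.Work.MT.General

/-! # the result -/

namespace Pool.Agent.Work.MP_2beaeb_nt

open Finset
open scoped ArithmeticFunction.sigma

/-- `n = (u+1) p`, `n + 1 = u q` -/
lemma Result_pair {u d t p q : ℕ} (hu : 0 < u) (hd : 0 < d) (hp : p.Prime) (hq : q.Prime)
    (hpt : p + 1 = u * d * t) (hqt : q + 1 = (u + 1) * d * t) (hup : u + 1 < p) (huq : u < q) :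
    (u + 1) * p + 1 = u * q ∧
      (σ 1 ((u + 1) * p + 1) : ℚ) =
        ((σ 1 u : ℚ) * (u + 1) / (σ 1 (u + 1) * u)) * σ 1 ((u + 1) * p) := by
  have h1 : (u + 1) * p + 1 = u * q := by
    have e1 : (u + 1) * (p + 1) = u * (q + 1) := by
      rw [hpt, hqt]; ring
    have e2 : (u + 1) * p + 1 + u = u * q + u := by
      calc (u + 1) * p + 1 + u = (u + 1) * (p + 1) := by ring
        _ = u * (q + 1) := e1
        _ = u * q + u := by ring
    omega
  refine ⟨h1, ?_⟩
  have hcp : (u + 1).Coprime p := by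
    rw [Nat.coprime_comm, hp.coprime_iff_not_dvd]
    intro h
    have := Nat.le_of_dvd (by omega) h
    omega
  have hcq : u.Coprime q := by
    rw [Nat.coprime_comm, hq.coprime_iff_not_dvd]
    intro h
    have := Nat.le_of_dvd hu h
    omega
  have s1 : σ 1 ((u + 1) * p) = σ 1 (u + 1) * (p + 1) := by
    rw [ArithmeticFunction.isMultiplicative_sigma.map_mul_of_coprime hcp]
    congr 1
    rw [ArithmeticFunction.sigma_one_apply, hp.divisors, sum_pair hp.one_lt.ne]
    ring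
  have s2 : σ 1 (u * q) = σ 1 u * (q + 1) := by
    rw [ArithmeticFunction.isMultiplicative_sigma.map_mul_of_coprime hcq]
    congr 1
    rw [ArithmeticFunction.sigma_one_apply, hq.divisors, sum_pair hq.one_lt.ne]
    ring
  have hs : (0 : ℚ) < σ 1 (u + 1) := by
    exact_mod_cast ArithmeticFunction.sigma_pos 1 (u + 1) (by omega)
  have hu' : (0 : ℚ) < u := by exact_mod_cast hu
  rw [h1, s1, s2, hpt, hqt]
  push_cast
  field_simp

/-- the ratio as a real number -/
lemma Result_cast {u : ℕ} (hu : 0 < u) :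
    (((σ 1 u : ℚ) * (u + 1) / (σ 1 (u + 1) * u) : ℚ) : ℝ) = hab u / hab (u + 1) := by
  have hs : (0 : ℝ) < σ 1 (u + 1) := by
    exact_mod_cast ArithmeticFunction.sigma_pos 1 (u + 1) (by omega)
  have hu' : (0 : ℝ) < u := by exact_mod_cast hu
  unfold hab
  push_cast
  field_simp

lemma Result_pos {u : ℕ} (hu : 0 < u) : 0 < hab u := by
  have hs : (0 : ℝ) < σ 1 u := by
    exact_mod_cast ArithmeticFunction.sigma_pos 1 u (by omega)
  have hu' : (0 : ℝ) < u := by exact_mod_cast hu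
  exact div_pos hs hu'

theorem result_aux : ∀ a b : ℝ, 0 < a → a < b → ∃ r : ℚ, a < r ∧ (r : ℝ) < b ∧
    ∀ ε : ℝ, 0 < ε → ∀ X₀ : ℕ, ∃ X : ℕ, X₀ ≤ X ∧ (X : ℝ) ^ (1 - ε) ≤
      ((Icc 1 X).filter (fun n => (σ 1 (n + 1) : ℚ) = r * σ 1 n)).card := by
  intro a b ha hab'
  have hb : 0 < b := ha.trans hab'
  set ρ : ℝ := (a + b) / 2 with hρ
  have hρ0 : 0 < ρ := by positivity
  set ε : ℝ := min (Real.log ρ - Real.log a) (Real.log b - Real.log ρ) with hε
  have hε0 : 0 < ε := by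
    refine lt_min ?_ ?_
    · exact sub_pos.2 (Real.log_lt_log ha (by rw [hρ]; linarith))
    · exact sub_pos.2 (Real.log_lt_log hρ0 (by rw [hρ]; linarith))
  obtain ⟨k, -, htwo⟩ := MT.two_primes
  obtain ⟨A, B, hA, hB, hAB, hkA, htar⟩ := signs ρ (ε / 2) hρ0 (by positivity) k
  obtain ⟨E, hE1, hE⟩ : ∃ E : ℕ, 1 ≤ E ∧ ((A.card + B.card : ℕ) : ℝ) * (2 / 2 ^ E) ≤ ε / 8 := by
    obtain ⟨E, hE⟩ := exists_pow_lt_of_lt_one
      (show 0 < ε / (16 * ((A.card + B.card : ℕ) + 1 : ℝ)) by positivity)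
      (show (1 / 2 : ℝ) < 1 by norm_num)
    refine ⟨E + 1, by omega, ?_⟩
    have h1 : (2 : ℝ) / 2 ^ (E + 1) ≤ 2 * (1 / 2) ^ E := by
      rw [pow_succ, one_div, inv_pow, div_le_iff₀ (by positivity)]
      field_simp
      norm_num
    have h0 : (0 : ℝ) ≤ (A.card + B.card : ℕ) := Nat.cast_nonneg _
    calc ((A.card + B.card : ℕ) : ℝ) * (2 / 2 ^ (E + 1))
        ≤ (A.card + B.card : ℕ) * (2 * (ε / (16 * ((A.card + B.card : ℕ) + 1 : ℝ)))) := by
          refine mul_le_mul_of_nonneg_left (h1.trans ?_) h0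
          linarith
      _ ≤ ((A.card + B.card : ℕ) + 1 : ℝ) * (2 * (ε / (16 * ((A.card + B.card : ℕ) + 1 : ℝ)))) := by
          refine mul_le_mul_of_nonneg_right (by linarith) (by positivity)
      _ = ε / 8 := by field_simp; norm_num
  obtain ⟨x, hx0, hmono, hdvd, hx⟩ := exists_set k hA hB hAB
    (fun p hp hpk => mem_union_left _ (hkA p hp hpk)) E hE1 (ε / 8) (by positivity)
  obtain ⟨i, j, hij, hmany⟩ := htwo x hx0 hmono
  obtain ⟨hu, hAu, hBu, hsum⟩ := hx i j hij
  set d : ℕ := x j - x i with hd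
  set u : ℕ := x i / d with hud
  have hlt : x i < x j := hmono hij
  have hd0 : 0 < d := by omega
  have hxi : u * d = x i := Nat.div_mul_cancel (hdvd i j hij)
  have hxj : (u + 1) * d = x j := by rw [add_mul, hxi, one_mul, hd]; omega
  have hest := hab_estimate hA hB hAB E u hu hAu hE1 hBu (ε / 8) hsum
  have hlog : |Real.log (hab u / hab (u + 1)) - Real.log ρ| < ε := by
    calc |Real.log (hab u / hab (u + 1)) - Real.log ρ|
        ≤ |Real.log (hab u / hab (u + 1)) - target A B| + |target A B - Real.log ρ| :=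
          abs_sub_le _ _ _
      _ < ε := by linarith
  have hpos : 0 < hab u / hab (u + 1) := div_pos (Result_pos hu) (Result_pos (by omega))
  rw [abs_lt] at hlog
  refine ⟨(σ 1 u : ℚ) * (u + 1) / (σ 1 (u + 1) * u), ?_, ?_, ?_⟩
  · rw [Result_cast hu]
    have h1 : ε ≤ Real.log ρ - Real.log a := min_le_left _ _
    exact (Real.log_lt_log_iff ha hpos).1 (by linarith)
  · rw [Result_cast hu]
    have h1 : ε ≤ Real.log b - Real.log ρ := min_le_right _ _
    exact (Real.log_lt_log_iff hpos hb).1 (by linarith)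
  · -- many n
    intro ε hε X₀
    set ε₁ : ℝ := min ε (1 / 2) with hε₁
    have hε₁0 : 0 < ε₁ := lt_min hε (by norm_num)
    have hε₁h : ε₁ ≤ 1 / 2 := min_le_right _ _
    have hε₁ε : ε₁ ≤ ε := min_le_left _ _
    set cc : ℕ := (u + 1) * x i with hcc
    have hxi1 := hx0 i
    have hxj1 := hx0 j
    have hcc1 : 1 ≤ cc := Nat.mul_pos (by omega) hxi1
    obtain ⟨B, hB⟩ : ∃ B : ℕ, ∀ n : ℕ, B ≤ n → (cc : ℝ) + 1 + (u + 2) ≤ (n : ℝ) ^ (ε₁ / 2) := by
      have := ((tendsto_rpow_atTop (show 0 < ε₁ / 2 by positivity)).comp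
        tendsto_natCast_atTop_atTop).eventually_ge_atTop ((cc : ℝ) + 1 + (u + 2))
      obtain ⟨B, hB⟩ := Filter.eventually_atTop.1 this
      exact ⟨B, fun n hn => hB n hn⟩
    obtain ⟨X, hX, hcount⟩ := hmany (ε₁ / 2) (by positivity) (B + X₀ + 1)
    have hX1 : 1 ≤ X := by omega
    have hXr : (1 : ℝ) ≤ X := by exact_mod_cast hX1
    have hX0r : (0 : ℝ) < X := by linarith
    refine ⟨cc * X, ?_, ?_⟩
    · have : X ≤ cc * X := Nat.le_mul_of_pos_left X hcc1
      omega
    set F := (Icc 1 X).filter (fun t => (x i * t - 1).Prime ∧ (x j * t - 1).Prime) with hF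
    set F' := F.filter (fun t => u + 2 < t) with hF'
    have hFF' : F.card ≤ F'.card + (u + 2) := by
      have h1 : F ⊆ F' ∪ Icc 1 (u + 2) := by
        intro t ht
        rw [mem_union, hF', mem_filter, mem_Icc]
        by_cases h : u + 2 < t
        · exact Or.inl ⟨ht, h⟩
        · refine Or.inr ⟨?_, by omega⟩
          rw [hF, mem_filter, mem_Icc] at ht
          exact ht.1.1
      calc F.card ≤ (F' ∪ Icc 1 (u + 2)).card := card_le_card h1
        _ ≤ _ := card_union_le _ _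
        _ = F'.card + (u + 2) := by rw [Nat.card_Icc]; omega
    have hmap : F'.image (fun t => (u + 1) * (x i * t - 1)) ⊆
        (Icc 1 (cc * X)).filter (fun n => (σ 1 (n + 1) : ℚ) =
          ((σ 1 u : ℚ) * (u + 1) / (σ 1 (u + 1) * u)) * σ 1 n) := by
      intro n hn
      obtain ⟨t, ht, rfl⟩ := mem_image.1 hn
      rw [hF', mem_filter, hF, mem_filter, mem_Icc] at ht
      obtain ⟨⟨⟨ht1, htX⟩, hp, hq⟩, ht'⟩ := ht
      have hp1 : x i * t - 1 + 1 = u * d * t := by
        rw [hxi]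
        have := hp.pos
        omega
      have hq1 : x j * t - 1 + 1 = (u + 1) * d * t := by
        rw [hxj]
        have := hq.pos
        omega
      have hti : t ≤ x i * t := Nat.le_mul_of_pos_left t hxi1
      have htj : t ≤ x j * t := Nat.le_mul_of_pos_left t hxj1
      obtain ⟨-, h2⟩ := Result_pair hu hd0 hp hq hp1 hq1 (by omega) (by omega)
      rw [mem_filter, mem_Icc]
      refine ⟨⟨Nat.mul_pos (by omega) hp.pos, ?_⟩, h2⟩
      calc (u + 1) * (x i * t - 1) ≤ (u + 1) * (x i * X) :=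
            Nat.mul_le_mul_left _ ((Nat.sub_le _ _).trans (Nat.mul_le_mul_left _ htX))
        _ = cc * X := by rw [hcc]; ring
    have hinj : (F'.image (fun t => (u + 1) * (x i * t - 1))).card = F'.card := by
      refine card_image_of_injOn ?_
      intro t ht t' ht' heq
      have ht2 : t ∈ F' := ht
      have ht2' : t' ∈ F' := ht'
      rw [hF', mem_filter, hF, mem_filter] at ht2 ht2'
      have h1 := Nat.eq_of_mul_eq_mul_left (by omega) heq
      have h2 : 0 < x i * t - 1 := ht2.1.2.1.pos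
      have h3 : x i * t = x i * t' := by omega
      exact Nat.eq_of_mul_eq_mul_left hxi1 h3
    have hle : F'.card ≤ ((Icc 1 (cc * X)).filter (fun n => (σ 1 (n + 1) : ℚ) =
          ((σ 1 u : ℚ) * (u + 1) / (σ 1 (u + 1) * u)) * σ 1 n)).card :=
      hinj ▸ card_le_card hmap
    have h4 : (F.card : ℝ) ≤ F'.card + (u + 2) := by exact_mod_cast hFF'
    have h5 := hB X (by omega)
    have h6 : (X : ℝ) ^ (1 - ε₁ / 2) = (X : ℝ) ^ (1 - ε₁) * (X : ℝ) ^ (ε₁ / 2) := by
      rw [← Real.rpow_add hX0r]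
      congr 1
      ring
    have h7 : 1 ≤ (X : ℝ) ^ (1 - ε₁) := Real.one_le_rpow hXr (by linarith)
    have hccr : (1 : ℝ) ≤ cc := by exact_mod_cast hcc1
    have h8 : ((cc * X : ℕ) : ℝ) ^ (1 - ε) ≤ cc * (X : ℝ) ^ (1 - ε₁) := by
      have h9 : (1 : ℝ) ≤ ((cc * X : ℕ) : ℝ) := by
        push_cast
        nlinarith
      calc ((cc * X : ℕ) : ℝ) ^ (1 - ε) ≤ ((cc * X : ℕ) : ℝ) ^ (1 - ε₁) :=
            Real.rpow_le_rpow_of_exponent_le h9 (by linarith)
        _ = (cc : ℝ) ^ (1 - ε₁) * (X : ℝ) ^ (1 - ε₁) := by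
            push_cast
            rw [Real.mul_rpow (by linarith) hX0r.le]
        _ ≤ (cc : ℝ) ^ (1 : ℝ) * (X : ℝ) ^ (1 - ε₁) := by
            refine mul_le_mul_of_nonneg_right ?_ (by linarith)
            exact Real.rpow_le_rpow_of_exponent_le hccr (by linarith)
        _ = cc * (X : ℝ) ^ (1 - ε₁) := by rw [Real.rpow_one]
    have h10 : cc * (X : ℝ) ^ (1 - ε₁) + (u + 2) ≤ (X : ℝ) ^ (1 - ε₁ / 2) := by
      rw [h6]
      have hu2 : (0 : ℝ) ≤ (u : ℝ) + 2 := by positivity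
      nlinarith
    have h11 : (F'.card : ℝ) ≤ (((Icc 1 (cc * X)).filter (fun n => (σ 1 (n + 1) : ℚ) =
          ((σ 1 u : ℚ) * (u + 1) / (σ 1 (u + 1) * u)) * σ 1 n)).card : ℝ) := by
      exact_mod_cast hle
    linarith

end Pool.Agent.Work.MP_2beaeb_nt
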