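import Pool.Agent.Work.MP_2beaeb_nt.Defs

/-! # the choice of the signs -/

namespace Pool.Agent.Work.MP_2beaeb_nt

open Finset
open scoped ArithmeticFunction.sigma

/-- the local term -/
noncomputable def Signs_f (n : ℕ) : ℝ := if n.Prime then Real.log ((n : ℝ) / (n - 1)) else 0

theorem Signs_bounds {n : ℕ} (hn : n.Prime) :
    1 / (n : ℝ) ≤ Real.log ((n : ℝ) / (n - 1)) ∧ Real.log ((n : ℝ) / (n - 1)) ≤ 1 / ((n : ℝ) - 1) := by
  have h2 : (2 : ℝ) ≤ n := by exact_mod_cast hn.two_le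
  have hn0 : (0 : ℝ) < n := by linarith
  have hn1 : (0 : ℝ) < (n : ℝ) - 1 := by linarith
  constructor
  · have h1 := Real.log_le_sub_one_of_pos (x := ((n : ℝ) - 1) / n) (by positivity)
    have h3 : Real.log ((n : ℝ) / (n - 1)) = - Real.log (((n : ℝ) - 1) / n) := by
      rw [← Real.log_inv, inv_div]
    rw [h3]
    have h4 : ((n : ℝ) - 1) / n - 1 = - (1 / n) := by
      field_simp
      ring
    linarith
  · have h1 := Real.log_le_sub_one_of_pos (x := (n : ℝ) / (n - 1)) (by positivity)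
    have h4 : (n : ℝ) / (n - 1) - 1 = 1 / (n - 1) := by
      field_simp
      ring
    linarith

theorem Signs_nonneg (n : ℕ) : 0 ≤ Signs_f n := by
  rw [Signs_f]
  split_ifs with h
  · exact (by positivity : (0 : ℝ) ≤ 1 / (n : ℝ)).trans (Signs_bounds h).1
  · exact le_rfl

theorem Signs_tendsto :
    Filter.Tendsto (fun N => ∑ n ∈ range N, Signs_f n) Filter.atTop Filter.atTop := by
  refine (not_summable_iff_tendsto_nat_atTop_of_nonneg Signs_nonneg).1 fun h => ?_
  refine not_summable_one_div_on_primes (h.of_nonneg_of_le (fun n => ?_) fun n => ?_)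
  · exact Set.indicator_nonneg (fun _ _ => by positivity) n
  · rw [Set.indicator_apply, Signs_f]
    by_cases hn : n.Prime
    · rw [if_pos hn, if_pos (by exact hn)]
      exact (Signs_bounds hn).1
    · rw [if_neg hn, if_neg (by exact hn)]

theorem Signs_choose {ε T : ℝ} (hT : 0 ≤ T) {K₀ : ℕ} (hK : ∀ n, K₀ ≤ n → Signs_f n < ε) :
    ∃ P, K₀ ≤ P ∧ |∑ n ∈ Ico K₀ P, Signs_f n - T| < ε := by
  classical
  have h1 : ∃ j : ℕ, T < ∑ n ∈ Ico K₀ (K₀ + j + 1), Signs_f n := by
    obtain ⟨N, hN⟩ := Filter.eventually_atTop.1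
      ((Filter.tendsto_atTop.1 Signs_tendsto) (T + 1 + ∑ n ∈ range K₀, Signs_f n))
    refine ⟨N, ?_⟩
    have h2 := hN (K₀ + N + 1) (by omega)
    rw [sum_Ico_eq_sub _ (by omega)]
    linarith
  have h2 := Nat.find_spec h1
  have h3 := fun m => Nat.find_min h1 (m := m)
  set j := Nat.find h1 with hj
  refine ⟨K₀ + j, by omega, ?_⟩
  have h4 : ∑ n ∈ Ico K₀ (K₀ + j), Signs_f n ≤ T := by
    rcases Nat.eq_zero_or_pos j with h | h
    · rw [h]
      simpa using hT
    · have := h3 (j - 1) (by omega)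
      rw [not_lt, show K₀ + (j - 1) + 1 = K₀ + j by omega] at this
      exact this
  rw [sum_Ico_succ_top (by omega)] at h2
  have h5 := hK (K₀ + j) (by omega)
  rw [abs_lt]
  constructor <;> linarith [Signs_nonneg (K₀ + j)]

theorem Signs_small {ε : ℝ} (hε : 0 < ε) : ∃ K₀ : ℕ, ∀ n, K₀ ≤ n → Signs_f n < ε := by
  obtain ⟨K, hK⟩ := exists_nat_gt (1 / ε)
  refine ⟨K + 2, fun n hn => ?_⟩
  rw [Signs_f]
  split_ifs with h
  · refine (Signs_bounds h).2.trans_lt ?_
    have h1 : (K : ℝ) + 2 ≤ n := by exact_mod_cast hn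
    have h0 : 0 < 1 / ε := by positivity
    rw [div_lt_iff₀ (by linarith)]
    have h2 : 1 = ε * (1 / ε) := by field_simp
    rw [h2]
    exact mul_lt_mul_of_pos_left (by linarith) hε
  · exact hε

theorem signs (ρ ε : ℝ) (hρ : 0 < ρ) (hε : 0 < ε) (k : ℕ) : ∃ A B : Finset ℕ,
    (∀ p ∈ A, p.Prime) ∧ (∀ p ∈ B, p.Prime) ∧ Disjoint A B ∧ (∀ p, p.Prime → p ≤ k → p ∈ A) ∧
      |target A B - Real.log ρ| < ε := by
  obtain ⟨K₁, hK₁⟩ := Signs_small hε
  set K₀ := max K₁ (k + 1) with hK₀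
  have hs : ∀ n, K₀ ≤ n → Signs_f n < ε := fun n hn => hK₁ n ((le_max_left _ _).trans hn)
  have hf : ∀ s : Finset ℕ, ∑ p ∈ s.filter Nat.Prime, Real.log ((p : ℝ) / (p - 1)) =
      ∑ n ∈ s, Signs_f n := fun s => by rw [sum_filter]; rfl
  rcases le_or_gt 0 (Real.log ρ - ∑ n ∈ range K₀, Signs_f n) with h | h
  · obtain ⟨P, hP, hPT⟩ := Signs_choose h hs
    refine ⟨(range P).filter Nat.Prime, ∅, fun p hp => (mem_filter.1 hp).2, by simp, by simp,
      fun p hp hpk => ?_, ?_⟩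
    · refine mem_filter.2 ⟨mem_range.2 ?_, hp⟩
      have := le_max_right K₁ (k + 1)
      omega
    · rw [target, hf, sum_empty, sub_zero, ← sum_range_add_sum_Ico _ hP]
      convert hPT using 2
      ring
  · obtain ⟨P, hP, hPT⟩ := Signs_choose (T := -(Real.log ρ - ∑ n ∈ range K₀, Signs_f n))
      (by linarith) hs
    refine ⟨(range K₀).filter Nat.Prime, (Ico K₀ P).filter Nat.Prime,
      fun p hp => (mem_filter.1 hp).2, fun p hp => (mem_filter.1 hp).2, ?_,
      fun p hp hpk => ?_, ?_⟩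
    · rw [disjoint_left]
      intro p h1 h2
      have h3 := mem_range.1 (mem_filter.1 h1).1
      have h4 := (mem_Ico.1 (mem_filter.1 h2).1).1
      omega
    · refine mem_filter.2 ⟨mem_range.2 ?_, hp⟩
      have := le_max_right K₁ (k + 1)
      omega
    · rw [target, hf, hf]
      rw [abs_lt] at hPT ⊢
      constructor <;> linarith [hPT.1, hPT.2]

end Pool.Agent.Work.MP_2beaeb_nt
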